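import Pool.Agent.Helper57.HX.Defs
import Pool.Agent.Helper57.RBC.Seq
import Pool.Agent.Helper94.GS.GDZ
import Pool.Agent.Helper97.HS.MOMP
import Pool.Agent.Helper19.HS.LPR

/-!
# XBG, XMON, XEX, XSEQ
-/

open Complex Metric Set Filter Topology MeasureTheory
open scoped ContDiff ComplexConjugate ComplexOrder Manifold Matrix

namespace Pool.Agent.Helper57.HX

open Pool.Agent.Helper95.Lin Pool.Agent.Helper16.Abund Pool.Agent.Helper92.Orb
  Pool.Agent.Helper10.SP Pool.Agent.Helper95.RK Pool.Agent.Helper57.HS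
  Pool.Agent.Helper15.HS Pool.Agent.Helper15.GS Pool.Agent.Helper57.RBC
  Pool.Agent.Helper16.HS.AYTP

universe u

/-- Change of the background metric. -/
theorem xbg (hWIRT : S_WIRT) (hRHOI : S_RHOI.{u}) : S_XBG.{u} := by
  intro n T G _ R H g ψ D H' hH'
  have hT := D.ket.et.isOpen
  obtain ⟨hi, hr⟩ := (hRHOI T R H D.ket.et (her_ket D.ket)).2.2.2.2 H' (her_ket hH')
  refine ⟨hH', D.psd, D.smooth, D.inv, ⟨D.psi.1.sub hi.1, fun γ x y hR => ?_⟩, fun x hx => ?_,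
    D.cl, D.lcl⟩
  · have h0 := D.psi.2 γ x y hR
    have h1 := hi.2 γ x y hR
    simp only at h1 ⊢
    rw [h0, h1]
  · have e1 : (fun y => ψ y - (ld H' y - ld H y)) =
        fun y => 1 * ψ y + (-1) * (ld H' y - ld H y) := by
      funext y; ring
    rw [e1, Pool.Agent.Helper94.HS.LM_lin hWIRT hT D.psi.1 hi.1 1 (-1) hx, hr x hx]
    have e2 : rho H x + LM (fun y => ld H' y - ld H y) x +
        (((1 : ℝ) : ℂ) • LM ψ x + ((-1 : ℝ) : ℂ) • LM (fun y => ld H' y - ld H y) x) + g x =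
        rho H x + LM ψ x + g x := by
      push_cast
      module
    rw [e2]
    exact D.pos x hx

/-- The sharp bound. -/
theorem xmon (hMAXF : Pool.Agent.Helper95.HS.S_MAXF.{u})
    (hTRI : Pool.Agent.Helper95.HS.S_TRI.{u}) : S_XMON.{u} := by
  intro n T G _ R H g ψ D s hs ε Q hε hQ x hx
  have hT := D.ket.et.isOpen
  have hinv : InvF T R (fun x => (Matrix.trace (g x * (Q x)⁻¹)).re) :=
    (hTRI T R Q hQ.ket).1 g D.smooth D.inv
  obtain ⟨x₀, hx₀, hmax, hpsd⟩ := hMAXF T R D.ket.et _ hinv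
  have hQp := hQ.ket.posDef x₀ hx₀
  have hcl := D.cl Q hQ.ket x₀ hx₀
  have hle : (trL Q (fun y => (Matrix.trace (g y * (Q y)⁻¹)).re) x₀).re ≤ 0 := by
    have h1 := tr_mul_nonneg hQp.posSemidef.inv hpsd
    rw [Matrix.mul_neg, Matrix.trace_neg, Complex.neg_re] at h1
    unfold trL
    linarith
  have hu : IsUnit (Q x₀).det := (Matrix.isUnit_iff_isUnit_det _).1 hQp.isUnit
  have hη : (Matrix.trace (rho Q x₀ * (Q x₀)⁻¹ * g x₀ * (Q x₀)⁻¹)).re =
      (Matrix.trace (g x₀ * (Q x₀)⁻¹)).re -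
        ε * (Matrix.trace (H x₀ * (Q x₀)⁻¹ * g x₀ * (Q x₀)⁻¹)).re := by
    rw [hQ.eq x₀ hx₀, Matrix.sub_mul, Matrix.sub_mul, Matrix.sub_mul, Matrix.trace_sub,
      Matrix.mul_nonsing_inv _ hu, Matrix.one_mul, Matrix.smul_mul, Matrix.smul_mul,
      Matrix.smul_mul, Matrix.trace_smul, smul_eq_mul, Complex.sub_re, Complex.re_ofReal_mul]
  obtain ⟨ht0, hb0, ha0, hcs⟩ := cs_tr (D.ket.posDef x₀ hx₀) (D.psd x₀ hx₀) hQp
  have hsb := hs x₀ hx₀
  rw [hη] at hcl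
  set t := (Matrix.trace (g x₀ * (Q x₀)⁻¹)).re with ht
  set a := (Matrix.trace (H x₀ * (Q x₀)⁻¹ * g x₀ * (Q x₀)⁻¹)).re with ha
  set b := (Matrix.trace (g x₀ * (H x₀)⁻¹)).re with hb
  have h1 : ε * a ≤ t := by linarith
  have h2 : ε * t ≤ s := by
    rcases ht0.eq_or_lt with h0 | h0
    · rw [← h0, mul_zero]
      linarith
    · have h3 : ε * t * t ≤ s * t := by
        calc ε * t * t = ε * t ^ 2 := by ring
          _ ≤ ε * (a * b) := mul_le_mul_of_nonneg_left hcs hε.le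
          _ = (ε * a) * b := by ring
          _ ≤ t * b := mul_le_mul_of_nonneg_right h1 hb0
          _ ≤ t * s := mul_le_mul_of_nonneg_left hsb h0.le
          _ = s * t := by ring
      exact le_of_mul_le_mul_right h3 h0
  exact (mul_le_mul_of_nonneg_left (hmax x hx) hε.le).trans h2

/-- `g ≤ tr (g Q⁻¹) Q`. -/
theorem tr_dom {n : ℕ} {g Q : Matrix (Fin n) (Fin n) ℂ} (hQ : Q.PosDef) (hg : g.PosSemidef) :
    (((Matrix.trace (g * Q⁻¹)).re : ℂ) • Q - g).PosSemidef := by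
  obtain ⟨S, hS, hdet⟩ := Pool.Agent.Helper19.HS.facS hQ
  have hu : IsUnit S.det := isUnit_iff_ne_zero.2 hdet
  have huH : IsUnit Sᴴ.det := by
    rw [Matrix.det_conjTranspose]
    exact hu.star
  have h1 : (S⁻¹ * g * (S⁻¹)ᴴ).PosSemidef := hg.mul_mul_conjTranspose_same S⁻¹
  have hinv : Q⁻¹ = (S⁻¹)ᴴ * S⁻¹ := by
    rw [hS, Matrix.mul_inv_rev, Matrix.conjTranspose_nonsing_inv]
  have h2 : Matrix.trace (S⁻¹ * g * (S⁻¹)ᴴ) = Matrix.trace (g * Q⁻¹) := by
    rw [hinv, ← Matrix.mul_assoc, Matrix.trace_mul_comm (g * (S⁻¹)ᴴ), ← Matrix.mul_assoc]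
  have h3 := (Pool.Agent.Helper94.GS.psd_trace h1).mul_mul_conjTranspose_same S
  rw [h2] at h3
  have e : S * (((Matrix.trace (g * Q⁻¹)).re : ℂ) • (1 : Matrix (Fin n) (Fin n) ℂ) -
      S⁻¹ * g * (S⁻¹)ᴴ) * Sᴴ = ((Matrix.trace (g * Q⁻¹)).re : ℂ) • Q - g := by
    rw [Matrix.mul_sub, Matrix.sub_mul, Matrix.mul_smul, Matrix.mul_one, Matrix.smul_mul, ← hS]
    congr 1
    have e1 : (S⁻¹)ᴴ = (Sᴴ)⁻¹ := Matrix.conjTranspose_nonsing_inv S
    rw [e1]
    calc S * (S⁻¹ * g * (Sᴴ)⁻¹) * Sᴴ = (S * S⁻¹) * g * ((Sᴴ)⁻¹ * Sᴴ) := by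
          simp only [Matrix.mul_assoc]
      _ = g := by
          rw [Matrix.mul_nonsing_inv _ hu, Matrix.nonsing_inv_mul _ huH, Matrix.one_mul,
            Matrix.mul_one]
  rwa [e] at h3

/-- `Q - d g ≥ 0` if `d tr (g Q⁻¹) ≤ 1`. -/
theorem sub_psd {n : ℕ} {g Q : Matrix (Fin n) (Fin n) ℂ} (hQ : Q.PosDef) (hg : g.PosSemidef)
    {d : ℝ} (hd : 0 ≤ d) (h : d * (Matrix.trace (g * Q⁻¹)).re ≤ 1) :
    (Q - (d : ℂ) • g).PosSemidef := by
  have e : Q - (d : ℂ) • g = ((1 - d * (Matrix.trace (g * Q⁻¹)).re : ℝ) : ℂ) • Q +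
      (d : ℂ) • (((Matrix.trace (g * Q⁻¹)).re : ℂ) • Q - g) := by
    push_cast
    module
  rw [e]
  refine (hQ.posSemidef.smul (Complex.zero_le_real.2 (by linarith))).add
    ((tr_dom hQ hg).smul (Complex.zero_le_real.2 hd))

/-- A Kähler metric in the class of `rho B + X₀` gives a solution of `rho Q = Q - X₀`. -/
theorem of_pot (hAYG : S_AYG.{u}) (hWIRT : S_WIRT) (hRHOI : S_RHOI.{u}) {n : ℕ}
    {T : Set (Cn n)} {G : Type u} [Group G] {R : G → Cn n → Cn n → Prop}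
    {B X X₀ : Cn n → Matrix (Fin n) (Fin n) ℂ} (hB : KEt T R B) (hX : KEt T R X)
    {f : Cn n → ℝ} (hf : InvF T R f) (he : ∀ x ∈ T, X x = rho B x + X₀ x + LM f x) :
    ∃ Q, KEt T R Q ∧ ∀ x ∈ T, rho Q x = Q x - X₀ x := by
  have hT := hB.et.isOpen
  obtain ⟨u, hu, hQ, hdet⟩ := hAYG T R B X hB hX f hf
  refine ⟨_, hQ, fun x hx => ?_⟩
  have h1 := ((hRHOI T R B hB.et (her_ket hB)).2.2.2.2 _ (her_ket hQ)).2 x hx
  rw [h1]
  have h2 : LM (fun y => ld (fun x => X x + LM u x) y - ld B y) x =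
      LM (fun y => 1 * u y + 1 * f y) x := by
    refine Helper70.HS.LM_congr_nhds ?_
    filter_upwards [hT.mem_nhds hx] with y hy
    unfold ld
    have h3 : 0 < (B y).det.re := (Complex.pos_iff.1 (hB.posDef y hy).det_pos).1
    rw [hdet y hy, Real.log_mul (Real.exp_pos _).ne' h3.ne', Real.log_exp]
    ring
  rw [h2, Pool.Agent.Helper94.HS.LM_lin hWIRT hT hu.1 hf.1 1 1 hx, he x hx]
  push_cast
  module

theorem invF_lin {n : ℕ} {T : Set (Cn n)} {G : Type u} [Group G] {R : G → Cn n → Cn n → Prop}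
    {f g : Cn n → ℝ} (hf : InvF T R f) (hg : InvF T R g) (a c : ℝ) :
    InvF T R (fun x => a * f x + c * g x) := by
  refine ⟨(contDiffOn_const.mul hf.1).add (contDiffOn_const.mul hg.1), fun γ x y hR => ?_⟩
  have h0 := hf.2 γ x y hR
  have h1 := hg.2 γ x y hR
  simp only
  rw [h0, h1]

/-- Existence for all `ε > 0`. -/
theorem xex (hAYG : S_AYG.{u}) (hWIRT : S_WIRT) (hRHOI : S_RHOI.{u}) (hCMPG : S_CMPG.{u})
    (hMAXF : Pool.Agent.Helper95.HS.S_MAXF.{u}) (hTRI : Pool.Agent.Helper95.HS.S_TRI.{u}) :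
    S_XEX.{u} := by
  intro n T G _ R H g ψ D
  have hH := D.ket
  have hT := hH.et.isOpen
  obtain ⟨hr1, hr2, -, hr4, hr5⟩ := hRHOI T R H hH.et (her_ket hH)
  obtain ⟨hp1, hp2⟩ := hr4 ψ D.psi
  obtain ⟨c₀, hc₀⟩ := low_bound hH hr1 hr2
  -- upwards closed
  have hup : ∀ ε ε' : ℝ, ε ≤ ε' → (∃ Q, TKE T R H ε Q) → ∃ Q, TKE T R H ε' Q := by
    rintro ε ε' hle ⟨Q, hQ⟩
    rcases hle.eq_or_lt with rfl | hlt
    · exact ⟨Q, hQ⟩
    have hX : KEt T R fun x => Q x - ((-(ε' - ε) : ℝ) : ℂ) • H x :=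
      lin_comb hH (chf_ket hQ.ket) hQ.ket.inv (-(ε' - ε)) fun x hx => by
        have e : Q x - ((-(ε' - ε) : ℝ) : ℂ) • H x = Q x + ((ε' - ε : ℝ) : ℂ) • H x := by
          push_cast
          module
        rw [e]
        exact (hQ.ket.posDef x hx).add ((hH.posDef x hx).smul
          (Complex.zero_lt_real.2 (by linarith)))
    obtain ⟨Q', hQ', hQe⟩ := step hAYG hRHOI hQ.ket hX
    refine ⟨Q', hQ', fun x hx => ?_⟩
    rw [hQe x hx, hQ.eq x hx]
    push_cast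
    module
  -- large parameters
  have hlarge : ∃ ε₀ : ℝ, 0 < ε₀ ∧ ∃ Q, TKE T R H ε₀ Q := by
    refine ⟨max 1 (1 - c₀), lt_of_lt_of_le one_pos (le_max_left _ _), ?_⟩
    set ε : ℝ := max 1 (1 - c₀) with hε
    have hε1 : 1 - c₀ ≤ ε := le_max_right _ _
    have hpos : ∀ x ∈ T, (rho H x - ((-ε : ℝ) : ℂ) • H x).PosDef := by
      intro x hx
      have e : rho H x - ((-ε : ℝ) : ℂ) • H x =
          (rho H x - (c₀ : ℂ) • H x) + ((c₀ + ε : ℝ) : ℂ) • H x := by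
        push_cast
        module
      rw [e]
      refine Matrix.PosDef.posSemidef_add (hc₀ x hx) ?_
      exact (hH.posDef x hx).smul (Complex.zero_lt_real.2 (by linarith))
    have hX := lin_comb hH hr1 hr2 (-ε) hpos
    obtain ⟨Q, hQ, hQe⟩ := step hAYG hRHOI hH hX
    refine ⟨Q, hQ, fun x hx => ?_⟩
    rw [hQe x hx]
    push_cast
    module
  -- the lower bound `c`
  have hYher : HerT T R (fun x => rho H x + LM ψ x + g x) := by
    refine ⟨D.pos, fun i j => ?_, ?_⟩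
    · exact ((hr1.smooth i j).add (hp1.smooth i j)).add (D.smooth i j)
    · exact Pool.Agent.Helper97.HS.invH_ad (Pool.Agent.Helper97.HS.invH_ad hr2 hp2) D.inv
  obtain ⟨c₁, C, hc₁, hC, hcmp⟩ := hCMPG T R H _ hH hYher
  set c : ℝ := C⁻¹ with hc
  have hc0 : 0 < c := inv_pos.2 hC
  have hcY : ∀ x ∈ T, (rho H x + LM ψ x + g x - (c : ℂ) • H x).PosSemidef := by
    intro x hx
    have h1 := ((hcmp x hx).2).smul (Complex.zero_le_real.2 hc0.le)
    have e : (c : ℂ) • ((C : ℂ) • (rho H x + LM ψ x + g x) - H x) =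
        rho H x + LM ψ x + g x - (c : ℂ) • H x := by
      rw [smul_sub, smul_smul, ← Complex.ofReal_mul, hc, inv_mul_cancel₀ hC.ne',
        Complex.ofReal_one, one_smul]
    rwa [e] at h1
  -- the bound `s`
  have hinvf : InvF T R (fun x => (Matrix.trace (g x * (H x)⁻¹)).re) :=
    (hTRI T R H hH).1 g D.smooth D.inv
  obtain ⟨x₀, hx₀, hmax, -⟩ := hMAXF T R hH.et _ hinvf
  set s : ℝ := max (Matrix.trace (g x₀ * (H x₀)⁻¹)).re c with hs
  have hsup : SupB T g H s := fun x hx => (hmax x hx).trans (le_max_left _ _)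
  have hcs : c ≤ s := le_max_right _ _
  have hs0 : 0 < s := hc0.trans_le hcs
  set q : ℝ := 1 - c / (2 * s) with hq
  have hq1 : q < 1 := by
    have : 0 < c / (2 * s) := by positivity
    linarith
  have hq0 : 0 < q := by
    have : c / (2 * s) ≤ 1 / 2 := by
      rw [div_le_div_iff₀ (by positivity) (by norm_num)]
      linarith
    linarith
  have hstep : ∀ ε : ℝ, 0 < ε → (∃ Q, TKE T R H ε Q) → ∃ Q, TKE T R H (q * ε) Q := by
    rintro ε hε ⟨Q, hQ⟩
    set d : ℝ := ε / s with hd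
    have hd0 : 0 < d := div_pos hε hs0
    have hd1 : 0 < 1 + d := by linarith
    have hmon := xmon hMAXF hTRI T R H g ψ D s hsup ε Q hε hQ
    have hdt : ∀ x ∈ T, d * (Matrix.trace (g x * (Q x)⁻¹)).re ≤ 1 := by
      intro x hx
      rw [hd, div_mul_eq_mul_div, div_le_one hs0]
      exact hmon x hx
    obtain ⟨hwi, hwr⟩ := hr5 Q (her_ket hQ.ket)
    set w : Cn n → ℝ := fun x => ld Q x - ld H x with hw
    -- `X₁ = (1 + d)⁻¹ (Q + d (rho H + LM ψ))`, `X = X₁ - (1 + d)⁻¹ (d c/2) H`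
    set a : ℝ := (1 + d)⁻¹ with ha
    have ha0 : 0 < a := inv_pos.2 hd1
    have had : a * (1 + d) = 1 := inv_mul_cancel₀ hd1.ne'
    set X₁ : Cn n → Matrix (Fin n) (Fin n) ℂ := fun x =>
      (a : ℂ) • (Q x + (d : ℂ) • (rho H x + LM ψ x)) with hX₁
    have hX₁c : CHF X₁ T := Pool.Agent.Helper97.HS.chf_sm hT (Pool.Agent.Helper97.HS.chf_ad hT
      (chf_ket hQ.ket) (Pool.Agent.Helper97.HS.chf_sm hT
        (Pool.Agent.Helper97.HS.chf_ad hT hr1 hp1) d)) a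
    have hX₁i : InvH R X₁ := Pool.Agent.Helper97.HS.invH_sm (Pool.Agent.Helper97.HS.invH_ad
      hQ.ket.inv (Pool.Agent.Helper97.HS.invH_sm
        (Pool.Agent.Helper97.HS.invH_ad hr2 hp2) (d : ℂ))) (a : ℂ)
    have hX : KEt T R fun x => X₁ x - ((a * (d * c / 2) : ℝ) : ℂ) • H x := by
      refine lin_comb hH hX₁c hX₁i _ fun x hx => ?_
      have e : X₁ x - ((a * (d * c / 2) : ℝ) : ℂ) • H x = (a : ℂ) • ((Q x - (d : ℂ) • g x) +
          (d : ℂ) • (rho H x + LM ψ x + g x - (c : ℂ) • H x) +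
          ((d * c / 2 : ℝ) : ℂ) • H x) := by
        simp only [hX₁]
        push_cast
        module
      rw [e]
      refine Matrix.PosDef.smul ?_ (Complex.zero_lt_real.2 ha0)
      refine Matrix.PosDef.posSemidef_add ?_ ((hH.posDef x hx).smul
        (Complex.zero_lt_real.2 (by positivity)))
      exact (sub_psd (hQ.ket.posDef x hx) (D.psd x hx) hd0.le (hdt x hx)).add
        ((hcY x hx).smul (Complex.zero_le_real.2 hd0.le))
    have hfi : InvF T R (fun x => a * w x + (a * d) * ψ x) := invF_lin hwi D.psi a (a * d)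
    set ε' : ℝ := a * (ε - d * c / 2) with hε'
    obtain ⟨Q', hQ', hQe⟩ := of_pot hAYG hWIRT hRHOI (X₀ := fun x => (ε' : ℂ) • H x) hH hX hfi
      (fun x hx => by
        rw [Pool.Agent.Helper94.HS.LM_lin hWIRT hT hwi.1 D.psi.1 a (a * d) hx]
        have h1 := hQ.eq x hx
        rw [hwr x hx] at h1
        have h2 : Q x = rho H x + LM w x + (ε : ℂ) • H x := by
          rw [h1]; abel
        have h3 : rho H x = ((a * (1 + d) : ℝ) : ℂ) • rho H x := by
          rw [had, Complex.ofReal_one, one_smul]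
        simp only [hX₁]
        rw [h2]
        conv_rhs => rw [h3]
        rw [hε']
        push_cast
        module)
    have hle : ε' ≤ q * ε := by
      have h1 : d * c / 2 = ε * (c / (2 * s)) := by
        rw [hd]
        field_simp
      have h2 : ε' = a * (q * ε) := by
        rw [hε', h1, hq]
        ring
      rw [h2]
      have h3 : a ≤ 1 := by
        rw [ha]
        exact inv_le_one_of_one_le₀ (by linarith)
      have h4 : 0 ≤ q * ε := by positivity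
      nlinarith
    exact hup ε' (q * ε) hle ⟨Q', hQ', hQe⟩
  -- induction
  obtain ⟨ε₀, hε₀, hex⟩ := hlarge
  have hind : ∀ m : ℕ, ∃ Q, TKE T R H (q ^ m * ε₀) Q := by
    intro m
    induction m with
    | zero => simpa using hex
    | succ m ih =>
      have h1 := hstep (q ^ m * ε₀) (by positivity) ih
      rwa [← mul_assoc, ← pow_succ'] at h1
  intro ε hε
  obtain ⟨m, hm⟩ := exists_pow_lt_of_lt_one (show 0 < ε / ε₀ by positivity) hq1
  exact hup _ ε ((lt_div_iff₀ hε₀).1 hm).le (hind m)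

/-- The minimising sequences. -/
theorem xseq (hMAXF : Pool.Agent.Helper95.HS.S_MAXF.{u})
    (hTRI : Pool.Agent.Helper95.HS.S_TRI.{u}) (hCMP : Pool.Agent.Helper95.HS.S_CMP.{u})
    (hXBG : S_XBG.{u}) (hXEX : S_XEX.{u}) (hXMON : S_XMON.{u}) (hRFAM : S_RFAM.{u}) :
    S_XSEQ.{u} := by
  intro n T G _ R H h ψ D
  have hH := D.ket
  have hT := hH.et.isOpen
  obtain ⟨p₀, hp₀⟩ := hH.et.nonempty
  have hinvf : ∀ Q : Cn n → Matrix (Fin n) (Fin n) ℂ, KEt T R Q →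
      InvF T R (fun x => (Matrix.trace (h x * (Q x)⁻¹)).re) := fun Q hQ =>
    (hTRI T R Q hQ).1 h D.smooth D.inv
  set A : Set ℝ := {s | ∃ (N : ℝ) (φ : Cn n → ℝ) (H' : Cn n → Matrix (Fin n) (Fin n) ℂ),
    Fam T R H N φ H' ∧ SupB T h H' s} with hA
  have hne : A.Nonempty := by
    obtain ⟨x₀, hx₀, hmax, -⟩ := hMAXF T R hH.et _ (hinvf H hH)
    refine ⟨_, 0, fun _ => 0, H, ⟨hH, le_rfl, ⟨contDiffOn_const, fun _ _ _ _ => rfl⟩, ?_⟩, hmax⟩
    intro x _
    rw [Pool.Agent.Helper94.HS.LM_const]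
    simp
  have hlow : ∀ s ∈ A, 0 ≤ s := by
    rintro s ⟨N, φ, H', hF, hs⟩
    refine le_trans ?_ (hs p₀ hp₀)
    exact tr_mul_nonneg (D.psd p₀ hp₀) (hF.ket.posDef p₀ hp₀).posSemidef.inv
  have hbdd : BddBelow A := ⟨0, fun s hs => hlow s hs⟩
  set s := sInf A with hs
  have hs0 : 0 ≤ s := le_csInf hne hlow
  have hex : ∀ j : ℕ, ∃ (S N : ℝ) (φ : Cn n → ℝ) (H' : Cn n → Matrix (Fin n) (Fin n) ℂ)
      (ε : ℝ) (Q : Cn n → Matrix (Fin n) (Fin n) ℂ),
      s ≤ S ∧ S ≤ s + 1 / ((j : ℝ) + 1) ∧ Fam T R H N φ H' ∧ SupB T h H' S ∧ 0 < ε ∧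
      ε ≤ 1 / ((j : ℝ) + 1) ∧ ε * N ≤ 1 / ((j : ℝ) + 1) ∧
      (∀ x ∈ T, ε * |φ x| ≤ 1 / ((j : ℝ) + 1)) ∧
      (∀ x ∈ T, (H x - (ε : ℂ) • H' x).PosSemidef) ∧ TKE T R H' ε Q ∧
      (∀ x ∈ T, ε * (Matrix.trace (h x * (Q x)⁻¹)).re ≤ S) ∧
      ∃ x ∈ T, s ≤ ε * (Matrix.trace (h x * (Q x)⁻¹)).re := by
    intro j
    have hj : (0 : ℝ) < 1 / ((j : ℝ) + 1) := by positivity
    set d : ℝ := 1 / ((j : ℝ) + 1) with hd
    obtain ⟨S, ⟨N, φ, H', hF, hS⟩, hlt⟩ := exists_lt_of_csInf_lt hne (show sInf A < s + d by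
      rw [← hs]; linarith)
    obtain ⟨x₁, hx₁, hm₁, -⟩ := hMAXF T R hH.et φ hF.inv
    obtain ⟨x₂, hx₂, hm₂, -⟩ := hMAXF T R hH.et (fun x => - φ x) ⟨hF.inv.1.neg, fun γ x y hR => by
      have h0 := hF.inv.2 γ x y hR
      simp only
      rw [h0]⟩
    set M : ℝ := max |φ x₁| |φ x₂| with hM
    have hφ : ∀ x ∈ T, |φ x| ≤ M := by
      intro x hx
      rw [abs_le]
      constructor
      · have h1 := hm₂ x hx
        have h2 : - φ x ≤ M := h1.trans ((neg_le_abs _).trans (le_max_right _ _))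
        linarith
      · exact (hm₁ x hx).trans ((le_abs_self _).trans (le_max_left _ _))
    have hM0 : 0 ≤ M := (abs_nonneg _).trans (hφ x₁ hx₁)
    obtain ⟨c, hc, hcm⟩ := hCMP T R H' H hF.ket hH
    have hN := hF.nn
    set ε : ℝ := min (min d (d / (N + 1))) (min (d / (M + 1)) c) with hε
    have hε0 : 0 < ε := by
      rw [hε]
      refine lt_min (lt_min hj (by positivity)) (lt_min (by positivity) hc)
    have he1 : ε ≤ d := (min_le_left _ _).trans (min_le_left _ _)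
    have he2 : ε ≤ d / (N + 1) := (min_le_left _ _).trans (min_le_right _ _)
    have he3 : ε ≤ d / (M + 1) := (min_le_right _ _).trans (min_le_left _ _)
    have he4 : ε ≤ c := (min_le_right _ _).trans (min_le_right _ _)
    have D' := hXBG T R H h ψ D H' hF.ket
    obtain ⟨Q, hQ⟩ := hXEX T R H' h _ D' ε hε0
    refine ⟨S, N, φ, H', ε, Q, csInf_le hbdd ⟨N, φ, H', hF, hS⟩, hlt.le, hF, hS, hε0, he1, ?_,
      ?_, ?_, hQ, hXMON T R H' h _ D' S hS ε Q hε0 hQ, ?_⟩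
    · rw [le_div_iff₀ (by positivity)] at he2
      nlinarith
    · intro x hx
      rw [le_div_iff₀ (by positivity)] at he3
      have := hφ x hx
      have h1 : ε * |φ x| ≤ ε * M := mul_le_mul_of_nonneg_left this hε0.le
      nlinarith
    · intro x hx
      have e : H x - (ε : ℂ) • H' x = (H x - (c : ℂ) • H' x) + ((c - ε : ℝ) : ℂ) • H' x := by
        push_cast
        module
      rw [e]
      refine (hcm x hx).add ((hF.ket.posDef x hx).posSemidef.smul ?_)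
      exact Complex.zero_le_real.2 (by linarith)
    · obtain ⟨x₀, hx₀, hmax, -⟩ := hMAXF T R hH.et _ (hinvf Q hQ.ket)
      refine ⟨x₀, hx₀, ?_⟩
      have hFQ := (hRFAM T R H hH N φ H' hF ε Q hε0 hQ).1
      refine csInf_le hbdd ⟨_, _, _, hFQ, ?_⟩
      intro x hx
      rw [tr_smul_inv (hQ.ket.posDef x hx) hε0]
      exact mul_le_mul_of_nonneg_left (hmax x hx) hε0.le
  choose S N φ H' ε Q h1 h2 h3 h4 h5 h6 h7 h8 h9 h10 h11 h12 using hex
  exact ⟨s, S, N, φ, H', ε, Q, ⟨hs0, h1, h2, h3, h4, h5, h6, h7, h8, h9, h10, h11, h12⟩⟩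

end Pool.Agent.Helper57.HX
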