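import Pool.Agent.Helper45.HB.GoalsM
import Pool.Agent.Helper45.HB.PUSHQ
import Pool.Agent.Helper40.RK.KLIM
import Pool.Agent.Helper56.HS.SBG

/-!
# HB: the data on the étale relation (HDM)
-/

open Complex Metric Set Filter Topology MeasureTheory
open scoped ContDiff ComplexConjugate ComplexOrder Manifold Matrix

namespace Pool.Agent.Helper57.HX

open Pool.Agent.Helper95.Lin Pool.Agent.Helper16.Abund Pool.Agent.Helper92.Orb
  Pool.Agent.Helper10.SP Pool.Agent.Helper95.RK Pool.Agent.Helper57.HS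
  Pool.Agent.Helper15.HS Pool.Agent.Helper10.HS Pool.Agent.Helper15.GS
  Pool.Agent.Helper82.HB Pool.Agent.Helper45.HB
open Pool.Agent.Helper45.Stmt (SeminegAlong CurvAddPos)

universe u v

/-- HDM. -/
theorem hdm (hPAR : S_PARH.{u, v}) (hKET : S_KETH.{u, v}) (hDET : S_DETI.{u}) (hLMF : S_LMF)
    (hWIRT : S_WIRT) : S_HDM.{u, v} := by
  intro n m G M _ _ _ _ _ _ _ om g hD hgi v hv hvi hpos T E σ h hE hC hσ hh hhs hgE hneg
  obtain ⟨hK, -⟩ := hKET hD T E hE hC
  have hTo : IsOpen T := hE.1.1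
  obtain ⟨d1, d2, -, -, d5, -⟩ := hDET T _ _ hK
  have hEat : ∀ z ∈ T, MDifferentiableAt 𝓘(ℂ, Fin n → ℂ) 𝓘(ℂ, Fin n → ℂ) E z := fun z hz =>
    hE.1.2.mdifferentiableAt (hTo.mem_nhds hz)
  have hls : ContDiffOn ℝ ∞ (lpot n v E) T := hv.2 T E hE
  have hlds : ContDiffOn ℝ ∞ (ld (pm n om E)) T := d2.log fun x hx => (d1 x hx).2.1.ne'
  refine ⟨hK, ⟨hσ, hh, hhs, ?_, hneg⟩, ⟨hls.sub hlds, ?_⟩, ?_⟩
  · -- invariance of the form
    intro U τ hA x hx u w
    obtain ⟨hU, hτ, γ, hγ⟩ := hA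
    have hxT := (hγ x hx).1
    have hτT := (hγ x hx).2.1
    have he := (hγ x hx).2.2
    rw [← hgE _ hτT, ← hgE _ hxT, Pool.Agent.Helper9.RK.hermi_pm,
      Pool.Agent.Helper9.RK.hermi_pm]
    have hda := fun e => dvec_arrow hD hEat hE hU (fun z hz => (hγ z hz).1) hτ
      (fun z hz => (hγ z hz).2.1) (fun z hz => (hγ z hz).2.2) hx e
    rw [hda u, hda w, ← he]
    exact hgi γ (E x) _ _
  · -- invariance of the function
    intro γ x y hxy
    obtain ⟨hx, hy, he⟩ := hxy
    obtain ⟨τ, U, W, hU, hW, hxU, hxW, hUT, hWT, hτ, -, hm, hτx, hdet, hiff⟩ :=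
      (hPAR hD).2.2.1 T T E E hE hE γ x hx y hy he
    have hej : ∀ z ∈ U, γ • E z = E (τ z) := fun z hz => (hiff z hz (τ z) (hm hz)).2 rfl
    have hj := Pool.Agent.Helper69.HS.jac_tau hPAR hD hE hE hU hUT hτ
      (fun z hz => hWT (hm hz)) hdet hej hxU
    rw [hτx] at hj
    have hA : Arr (RelT (G := G) T E) U τ :=
      ⟨hU, hτ, γ, fun z hz => ⟨hUT hz, hWT (hm hz), hej z hz⟩⟩
    have hdd := (d5 U τ hA x hxU).1
    rw [hτx] at hdd
    have hvx := hvi γ (E x)
    rw [he] at hvx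
    set D : ℝ := ‖(fderiv ℂ τ x).det‖ ^ 2 with hDdef
    have hD0 : 0 < D := by
      have := norm_pos_iff.2 (hdet x hxU)
      positivity
    have hjn : ‖jac n (fun z : M => γ • z) (E x)‖ ^ 2 * ‖jac n E x‖ ^ 2 = ‖jac n E y‖ ^ 2 * D := by
      rw [hDdef, ← mul_pow, ← mul_pow, ← norm_mul, ← norm_mul, hj]
    have e1 : v (E x) * ‖jac n E x‖ ^ 2 = v (E y) * ‖jac n E y‖ ^ 2 * D := by
      rw [← hvx, mul_assoc, hjn]
      ring
    have p1 : 0 < v (E y) * ‖jac n E y‖ ^ 2 := by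
      have h1 := hv.1 (E y)
      have h2 := norm_pos_iff.2 (hE.2 y hy)
      positivity
    have p2 := (d1 y hy).2.1
    show Real.log (v (E y) * ‖jac n E y‖ ^ 2) - Real.log (pm n om E y).det.re =
      Real.log (v (E x) * ‖jac n E x‖ ^ 2) - Real.log (pm n om E x).det.re
    rw [e1, hdd, Real.log_mul p1.ne' hD0.ne', Real.log_mul p2.ne' hD0.ne']
    ring
  · -- positivity
    intro x hx
    have hadd : LM (fun y => ld (pm n om E) y + (lpot n v E y - ld (pm n om E) y)) x =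
        LM (ld (pm n om E)) x + LM (fun y => lpot n v E y - ld (pm n om E) y) x :=
      Pool.Agent.Helper56.HS.LM_add hWIRT hTo hlds (hls.sub hlds) hx
    have hL : rho (pm n om E) x + LM (fun y => lpot n v E y - ld (pm n om E) y) x =
        LM (lpot n v E) x := by
      show LM (ld (pm n om E)) x + LM (fun y => lpot n v E y - ld (pm n om E) y) x = _
      rw [← hadd]
      congr 1
      funext y
      ring
    rw [hL]
    obtain ⟨-, hher, hlev, -⟩ := hLMF T hTo (lpot n v E) hls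
    have hgh : (gS σ h x).IsHermitian := by
      unfold gS
      exact Matrix.isHermitian_mul_mul_conjTranspose (σ x) (hh x hx).isHermitian
    refine Pool.Agent.Helper40.RK.posDef_of_hermi ((hher x hx).add hgh) fun e he => ?_
    have h1 : hermi (LM (lpot n v E) x + gS σ h x) e e =
        hermi (LM (lpot n v E) x) e e + hermi (gS σ h x) e e := by
      unfold hermi
      simp only [Matrix.add_apply, add_mul, Finset.sum_add_distrib]
    have h2 := hpos T E hE x hx e he
    rw [h1, Complex.add_re, ← hlev x hx e, Complex.ofReal_re, ← hgE x hx]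
    exact h2

end Pool.Agent.Helper57.HX
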