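import Pool.Agent.Helper57.RBC.Defs

/-!
# Semidefinite forms: data for the existence, the sharp bound, the minimising sequences and the exact metric

`g` is an invariant semidefinite form with `rho H + LM ψ + g > 0` for an invariant function `ψ`, such that the
Chern–Lu inequalities hold for `tr (g Q⁻¹)` and every invariant Kähler metric `Q`.
-/

open Complex Metric Set Filter Topology MeasureTheory
open scoped ContDiff ComplexConjugate ComplexOrder Manifold Matrix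

namespace Pool.Agent.Helper57.HX

open Pool.Agent.Helper95.Lin Pool.Agent.Helper16.Abund Pool.Agent.Helper92.Orb
  Pool.Agent.Helper10.SP Pool.Agent.Helper95.RK Pool.Agent.Helper57.HS
  Pool.Agent.Helper15.HS Pool.Agent.Helper15.GS Pool.Agent.Helper57.RBC

universe u v

/-- The data. -/
structure XDat {n : ℕ} (T : Set (Cn n)) {G : Type u} [Group G] (R : G → Cn n → Cn n → Prop)
    (H g : Cn n → Matrix (Fin n) (Fin n) ℂ) (ψ : Cn n → ℝ) : Prop where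
  ket : KEt T R H
  psd : ∀ x ∈ T, (g x).PosSemidef
  smooth : ∀ i j, ContDiffOn ℝ ∞ (fun x => g x i j) T
  inv : InvH R g
  psi : InvF T R ψ
  pos : ∀ x ∈ T, (rho H x + LM ψ x + g x).PosDef
  cl : ∀ Q : Cn n → Matrix (Fin n) (Fin n) ℂ, KEt T R Q → ∀ x ∈ T,
    - (Matrix.trace (rho Q x * (Q x)⁻¹ * g x * (Q x)⁻¹)).re ≤
      (trL Q (fun y => (Matrix.trace (g y * (Q y)⁻¹)).re) x).re
  lcl : ∀ Q : Cn n → Matrix (Fin n) (Fin n) ℂ, KEt T R Q →
    (∀ x ∈ T, (Q x - rho Q x).PosSemidef) → ∀ x ∈ T,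
    -1 ≤ (trL Q (fun y => Real.log ((Matrix.trace (g y * (Q y)⁻¹)).re + 1)) x).re

/-- XBG. Change of the background metric. -/
def S_XBG : Prop := ∀ {n : ℕ} (T : Set (Cn n)) {G : Type u} [Group G]
  (R : G → Cn n → Cn n → Prop) (H g : Cn n → Matrix (Fin n) (Fin n) ℂ) (ψ : Cn n → ℝ),
  XDat T R H g ψ → ∀ H', KEt T R H' →
  XDat T R H' g (fun x => ψ x - (ld H' x - ld H x))

/-- XMON. The sharp bound. -/
def S_XMON : Prop := ∀ {n : ℕ} (T : Set (Cn n)) {G : Type u} [Group G]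
  (R : G → Cn n → Cn n → Prop) (H g : Cn n → Matrix (Fin n) (Fin n) ℂ) (ψ : Cn n → ℝ),
  XDat T R H g ψ → ∀ s : ℝ, SupB T g H s → ∀ (ε : ℝ) (Q : Cn n → Matrix (Fin n) (Fin n) ℂ),
  0 < ε → TKE T R H ε Q → ∀ x ∈ T, ε * (Matrix.trace (g x * (Q x)⁻¹)).re ≤ s

/-- XEX. Existence of the twisted Kähler–Einstein metrics for all `ε > 0`.
PROOF. `rho H + LM ψ + g ≥ c H`. If `rho Q = Q - ε H`, `tr (g Q⁻¹) ≤ s/ε`, `d := ε/s`, then `Q - d g ≥ 0` and `X := (Q + d (rho H + LM ψ) -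
(d c/2) H)/(1 + d) > 0` is in the class of `rho H + ε' H`, `ε' = ε (1 - c/(2 s))/(1 + ε/s)`. -/
def S_XEX : Prop := ∀ {n : ℕ} (T : Set (Cn n)) {G : Type u} [Group G]
  (R : G → Cn n → Cn n → Prop) (H g : Cn n → Matrix (Fin n) (Fin n) ℂ) (ψ : Cn n → ℝ),
  XDat T R H g ψ → ∀ ε : ℝ, 0 < ε → ∃ Q, TKE T R H ε Q

/-- XSEQ. The minimising sequences. -/
def S_XSEQ : Prop := ∀ {n : ℕ} (T : Set (Cn n)) {G : Type u} [Group G]
  (R : G → Cn n → Cn n → Prop) (H g : Cn n → Matrix (Fin n) (Fin n) ℂ) (ψ : Cn n → ℝ),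
  XDat T R H g ψ →
  ∃ (s : ℝ) (S N : ℕ → ℝ) (φ : ℕ → Cn n → ℝ) (H' : ℕ → Cn n → Matrix (Fin n) (Fin n) ℂ)
    (ε : ℕ → ℝ) (Q : ℕ → Cn n → Matrix (Fin n) (Fin n) ℂ), SeqR T R H g s S N φ H' ε Q

/-- `β` is a closed invariant semipositive form such that the class of `rho H + β` has positive volume. -/
structure BDat {n : ℕ} (T : Set (Cn n)) {G : Type u} [Group G] (R : G → Cn n → Cn n → Prop)
    (H β : Cn n → Matrix (Fin n) (Fin n) ℂ) : Prop where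
  chf : CHF β T
  inv : InvH R β
  psd : ∀ x ∈ T, (β x).PosSemidef
  vol : ∀ κ, IsPUE T R κ → 0 < ∫ x in T, κ x * (rho H x + β x).det.re

/-- XBK. The exact metric `rho Q = Q - β`.
PROOF. For `0 < δ ≤ 1` let `rho Q = Q - β - δ H`. `S := tr (g Q⁻¹) + 1` is bounded uniformly in `δ` (`SBG`, `lcl`, volumes). So `g ≤ M Q` and for `δ < c/(2 M)` the class
of `(1 + 1/M) rho H + β` contains `Q + (rho H + LM ψ)/M - (c/(2 M)) H + ... > 0`. -/
def S_XBK : Prop := ∀ {n : ℕ}, 0 < n → ∀ (T : Set (Cn n)) {G : Type u} [Group G]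
  (R : G → Cn n → Cn n → Prop) (H g : Cn n → Matrix (Fin n) (Fin n) ℂ) (ψ : Cn n → ℝ),
  XDat T R H g ψ → ∀ β : Cn n → Matrix (Fin n) (Fin n) ℂ, BDat T R H β →
  ∃ Q : Cn n → Matrix (Fin n) (Fin n) ℂ, BKE T R H β 0 Q

end Pool.Agent.Helper57.HX
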