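import Pool.Agent.Helper57.HX.Ex
import Pool.Agent.Helper15.RBC.RV0
import Pool.Agent.Helper61.GS.GB1
import Pool.Agent.Helper88.GS.GB3
import Pool.Agent.Helper5.GS.GAV

/-!
# XBK: the exact metric `rho Q = Q - β`
-/

open Complex Metric Set Filter Topology MeasureTheory
open scoped ContDiff ComplexConjugate ComplexOrder Manifold Matrix

namespace Pool.Agent.Helper57.HX

open Pool.Agent.Helper95.Lin Pool.Agent.Helper16.Abund Pool.Agent.Helper92.Orb
  Pool.Agent.Helper10.SP Pool.Agent.Helper95.RK Pool.Agent.Helper57.HS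
  Pool.Agent.Helper15.HS Pool.Agent.Helper15.GS Pool.Agent.Helper57.RBC
  Pool.Agent.Helper16.HS.AYTP
open Pool.Agent.Helper5.GS (integrableOn_kap cont_det gav_pt)
open Pool.Agent.Helper88.GS (smul_psd smul_pd)

universe u

/-- Existence for `δ > 0`. -/
theorem xb1 (hAYG : S_AYG.{u}) (hRHOI : S_RHOI.{u}) (hXEX : S_XEX.{u}) {n : ℕ}
    {T : Set (Cn n)} {G : Type u} [Group G] {R : G → Cn n → Cn n → Prop}
    {H g β : Cn n → Matrix (Fin n) (Fin n) ℂ} {ψ : Cn n → ℝ} (D : XDat T R H g ψ)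
    (hβ : BDat T R H β) {δ : ℝ} (hδ : 0 < δ) : ∃ Q, BKE T R H β δ Q := by
  obtain ⟨Q', hQ'⟩ := hXEX T R H g ψ D δ hδ
  have hX : KEt T R fun x => Q' x + β x :=
    Pool.Agent.Helper61.GS.ket_add hQ'.ket hβ.chf hβ.inv hβ.psd
  obtain ⟨Q, hQ, hQe⟩ := step hAYG hRHOI hQ'.ket hX
  refine ⟨Q, hQ, fun x hx => ?_⟩
  rw [hQe x hx, hQ'.eq x hx]
  abel

/-- The volumes. -/
theorem xvb (hRHOI : S_RHOI.{u}) (hMOMG : S_MOMG.{u}) {n : ℕ}
    {T : Set (Cn n)} {G : Type u} [Group G] {R : G → Cn n → Cn n → Prop}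
    {H β : Cn n → Matrix (Fin n) (Fin n) ℂ} (hH : KEt T R H)
    (hβ : BDat T R H β) {κ : Cn n → ℝ} (hκ : IsPUE T R κ) {δ : ℝ}
    {Q : Cn n → Matrix (Fin n) (Fin n) ℂ} (hQ : BKE T R H β δ Q) (t : ℝ) :
    ∫ x in T, κ x * (Q x + (t : ℂ) • H x).det.re =
      ∫ x in T, κ x * (rho H x + β x + ((δ + t : ℝ) : ℂ) • H x).det.re := by
  have hT : IsOpen T := hH.et.isOpen
  obtain ⟨hr1, hr2, hr3, hr4, hr5⟩ := hRHOI T R H hH.et (her_ket hH)
  obtain ⟨hw, hrw⟩ := hr5 Q (her_ket hQ.1)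
  have hZ : CHF (fun x => rho H x + β x + ((δ + t : ℝ) : ℂ) • H x) T :=
    Pool.Agent.Helper97.HS.chf_ad hT (Pool.Agent.Helper97.HS.chf_ad hT hr1 hβ.chf)
      (Pool.Agent.Helper97.HS.chf_sm hT (chf_ket hH) (δ + t))
  have hZI : InvH R (fun x => rho H x + β x + ((δ + t : ℝ) : ℂ) • H x) :=
    Pool.Agent.Helper97.HS.invH_ad (Pool.Agent.Helper97.HS.invH_ad hr2 hβ.inv)
      (Pool.Agent.Helper97.HS.invH_sm hH.inv ((δ + t : ℝ) : ℂ))
  rw [← hMOMG T R H hH κ hκ _ hZ hZI _ hw]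
  refine setIntegral_congr_fun hT.measurableSet fun x hx => ?_
  have h3 := hQ.2 x hx
  rw [hrw x hx] at h3
  have h4 : Q x = rho H x + LM (fun y => ld Q y - ld H y) x + β x + (δ : ℂ) • H x := by
    rw [h3]
    abel
  have h2 : Q x + (t : ℂ) • H x = rho H x + β x + ((δ + t : ℝ) : ℂ) • H x +
      LM (fun y => ld Q y - ld H y) x := by
    rw [h4]
    push_cast
    module
  show κ x * (Q x + (t : ℂ) • H x).det.re = _
  rw [h2]

/-- Bounds of the volumes. -/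
theorem xv0 (hAYG : S_AYG.{u}) (hRHOI : S_RHOI.{u}) (hMOMG : S_MOMG.{u})
    (hNULL0 : Pool.Agent.Helper95.HS.S_NULL0.{u}) (hXEX : S_XEX.{u}) {n : ℕ}
    {T : Set (Cn n)} {G : Type u} [Group G] {R : G → Cn n → Cn n → Prop}
    {H g β : Cn n → Matrix (Fin n) (Fin n) ℂ} {ψ : Cn n → ℝ} (D : XDat T R H g ψ)
    (hβ : BDat T R H β) {κ : Cn n → ℝ} (hκ : IsPUE T R κ) :
    ∃ V0 V1 : ℝ, 0 < V0 ∧ ∀ s : ℝ, 0 ≤ s → s ≤ 2 →
      V0 ≤ ∫ x in T, κ x * (rho H x + β x + (s : ℂ) • H x).det.re ∧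
      ∫ x in T, κ x * (rho H x + β x + (s : ℂ) • H x).det.re ≤ V1 := by
  have hT : IsOpen T := D.ket.et.isOpen
  obtain ⟨hr1, -⟩ := hRHOI T R H D.ket.et (her_ket D.ket)
  set f : ℝ → ℝ := fun s => ∫ x in T, κ x * (rho H x + β x + (s : ℂ) • H x).det.re with hf
  have hc : ContinuousOn f (Icc (0 : ℝ) 2) := Pool.Agent.Helper15.RBC.cont_vol hT hκ.test
    (A := fun x => rho H x + β x) (H := H)
    (fun i j => ((hr1.smooth i j).continuousOn).add (hβ.chf.smooth i j).continuousOn)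
    fun i j => (D.ket.smooth i j).continuousOn
  have hpos : ∀ s : ℝ, 0 ≤ s → 0 < f s := by
    intro s hs
    rcases hs.eq_or_lt with rfl | hs
    · have h0 := hβ.vol κ hκ
      simp only [hf, Complex.ofReal_zero, zero_smul, add_zero]
      exact h0
    · obtain ⟨Q, hQ⟩ := xb1 hAYG hRHOI hXEX D hβ hs
      have h1 := xvb hRHOI hMOMG D.ket hβ hκ hQ 0
      rw [add_zero] at h1
      have h2 : f s = Pool.Agent.Helper95.HS.vol T κ Q := by
        simp only [hf]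
        rw [← h1]
        unfold Pool.Agent.Helper95.HS.vol
        simp
      rw [h2]
      exact (hNULL0 T R Q hQ.1 κ hκ).1
  have hne : (Icc (0 : ℝ) 2).Nonempty := ⟨0, by norm_num, by norm_num⟩
  obtain ⟨s0, hs0, hmin⟩ := isCompact_Icc.exists_isMinOn hne hc
  obtain ⟨s1, hs1, hmax⟩ := isCompact_Icc.exists_isMaxOn hne hc
  exact ⟨f s0, f s1, hpos s0 hs0.1, fun s hs hs2 => ⟨hmin ⟨hs, hs2⟩, hmax ⟨hs, hs2⟩⟩⟩

/-- The average of the trace of `g` is bounded. -/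
theorem xav (hTRC : Pool.Agent.Helper95.HS.S_TRC) (hRHOI : S_RHOI.{u}) (hMOMG : S_MOMG.{u})
    (hRHB : S_RHB.{u}) {n : ℕ}
    {T : Set (Cn n)} {G : Type u} [Group G] {R : G → Cn n → Cn n → Prop}
    {H g β : Cn n → Matrix (Fin n) (Fin n) ℂ} {ψ : Cn n → ℝ} (D : XDat T R H g ψ)
    (hβ : BDat T R H β) {κ : Cn n → ℝ} (hκ : IsPUE T R κ) {V0 V1 : ℝ} (hV0 : 0 < V0)
    (hV : ∀ s : ℝ, 0 ≤ s → s ≤ 2 →
      V0 ≤ ∫ x in T, κ x * (rho H x + β x + (s : ℂ) • H x).det.re ∧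
      ∫ x in T, κ x * (rho H x + β x + (s : ℂ) • H x).det.re ≤ V1) :
    ∃ C : ℝ, 0 ≤ C ∧ ∀ (δ : ℝ) (Q : Cn n → Matrix (Fin n) (Fin n) ℂ), 0 < δ → δ ≤ 1 →
      BKE T R H β δ Q →
      ∫ x in T, κ x * (Q x).det.re * ((Matrix.trace (g x * (Q x)⁻¹)).re + 1) ≤
        C * Pool.Agent.Helper95.HS.vol T κ Q := by
  obtain ⟨K, hK, hKb⟩ := hRHB T R H D.ket.et (her_ket D.ket) g
    (fun x hx => (D.psd x hx).isHermitian) (fun i j => (D.smooth i j).continuousOn) D.inv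
  have hV01 : V0 ≤ V1 := (hV 0 le_rfl (by norm_num)).1.trans (hV 0 le_rfl (by norm_num)).2
  have hT : IsOpen T := D.ket.et.isOpen
  have hV1 : 0 < V1 := hV0.trans_le hV01
  refine ⟨K * V1 / V0 + 1, by positivity, ?_⟩
  intro δ Q hδ hδ1 hQ
  have hk := hQ.1
  have hsm1 : ∀ i j, ContDiffOn ℝ ∞ (fun x => (Q x + ((1 : ℝ) : ℂ) • H x) i j) T := by
    intro i j
    simp only [Matrix.add_apply, Complex.ofReal_one, one_smul]
    exact (hk.smooth i j).add (D.ket.smooth i j)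
  have hi0 : IntegrableOn (fun x => κ x * (Q x).det.re) T :=
    integrableOn_kap hT hκ.test (cont_det hk.smooth)
  have hi1 : IntegrableOn (fun x => κ x * (Q x + ((1 : ℝ) : ℂ) • H x).det.re) T :=
    integrableOn_kap hT hκ.test (cont_det hsm1)
  have hvol : V0 ≤ Pool.Agent.Helper95.HS.vol T κ Q := by
    have h1 := xvb hRHOI hMOMG D.ket hβ hκ hQ 0
    rw [add_zero] at h1
    have h2 : Pool.Agent.Helper95.HS.vol T κ Q =
        ∫ x in T, κ x * (Q x + ((0 : ℝ) : ℂ) • H x).det.re := by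
      unfold Pool.Agent.Helper95.HS.vol
      simp
    rw [h2, h1]
    exact (hV δ hδ.le (by linarith)).1
  have hV1b : ∫ x in T, κ x * (Q x + ((1 : ℝ) : ℂ) • H x).det.re ≤ V1 := by
    rw [xvb hRHOI hMOMG D.ket hβ hκ hQ 1]
    exact (hV (δ + 1) (by linarith) (by linarith)).2
  have hpt : ∀ x ∈ T, 0 ≤ (Q x).det.re * (Matrix.trace (g x * (Q x)⁻¹)).re ∧
      (Q x).det.re * (Matrix.trace (g x * (Q x)⁻¹)).re ≤
        K * ((Q x + ((1 : ℝ) : ℂ) • H x).det.re - (Q x).det.re) := by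
    intro x hx
    have hQx := hk.posDef x hx
    have hd : 0 < (Q x).det.re := (Complex.pos_iff.1 hQx.det_pos).1
    have h1 := (gav_pt hTRC (Q x) (H x) (H x) hQx (D.ket.posDef x hx) (D.ket.posDef x hx) 1
      one_pos (by
        rw [Complex.ofReal_one, one_smul, sub_self]
        exact Matrix.PosSemidef.zero)).2
    rw [inv_one, one_mul] at h1
    have h2 := tr_mul_nonneg (hKb x hx).2 hQx.posSemidef.inv
    rw [Matrix.sub_mul, Matrix.trace_sub, Matrix.smul_mul, Matrix.trace_smul, smul_eq_mul,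
      Complex.sub_re, Complex.re_ofReal_mul] at h2
    have h3 := tr_mul_nonneg (D.psd x hx) hQx.posSemidef.inv
    refine ⟨mul_nonneg hd.le h3, ?_⟩
    calc (Q x).det.re * (Matrix.trace (g x * (Q x)⁻¹)).re
        ≤ (Q x).det.re * (K * (Matrix.trace (H x * (Q x)⁻¹)).re) :=
          mul_le_mul_of_nonneg_left (by linarith) hd.le
      _ = K * ((Q x).det.re * (Matrix.trace (H x * (Q x)⁻¹)).re) := by ring
      _ ≤ _ := mul_le_mul_of_nonneg_left h1 hK.le
  have hmono : ∫ x in T, κ x * (Q x).det.re * ((Matrix.trace (g x * (Q x)⁻¹)).re + 1) ≤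
      ∫ x in T, (K * (κ x * (Q x + ((1 : ℝ) : ℂ) • H x).det.re - κ x * (Q x).det.re) +
        κ x * (Q x).det.re) := by
    refine integral_mono_of_nonneg ?_ (((hi1.sub hi0).const_mul _).add hi0) ?_
    · refine (ae_restrict_iff' hT.measurableSet).2 (Eventually.of_forall fun x hx => ?_)
      have h1 := mul_nonneg (hκ.nonneg x) (hpt x hx).1
      have h2 : 0 < (Q x).det.re := (Complex.pos_iff.1 (hk.posDef x hx).det_pos).1
      have h3 := mul_nonneg (hκ.nonneg x) h2.le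
      simp only [Pi.zero_apply]
      nlinarith
    · refine (ae_restrict_iff' hT.measurableSet).2 (Eventually.of_forall fun x hx => ?_)
      have := mul_le_mul_of_nonneg_left (hpt x hx).2 (hκ.nonneg x)
      simp only
      linarith
  have hi2 : IntegrableOn (fun x => K * (κ x * (Q x + ((1 : ℝ) : ℂ) • H x).det.re -
      κ x * (Q x).det.re)) T := (hi1.sub hi0).const_mul K
  have hsp : ∫ x in T, (K * (κ x * (Q x + ((1 : ℝ) : ℂ) • H x).det.re - κ x * (Q x).det.re) +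
      κ x * (Q x).det.re) = K * ((∫ x in T, κ x * (Q x + ((1 : ℝ) : ℂ) • H x).det.re) -
      ∫ x in T, κ x * (Q x).det.re) + ∫ x in T, κ x * (Q x).det.re := by
    rw [integral_add hi2 hi0, integral_const_mul, integral_sub hi1 hi0]
  rw [hsp] at hmono
  have h5 : ∫ x in T, κ x * (Q x).det.re = Pool.Agent.Helper95.HS.vol T κ Q := rfl
  rw [h5] at hmono
  set V := Pool.Agent.Helper95.HS.vol T κ Q with hVdef
  have hVp : 0 < V := hV0.trans_le hvol
  have h6 : K * V1 ≤ K * V1 / V0 * V := by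
    rw [div_mul_eq_mul_div, le_div_iff₀ hV0]
    exact mul_le_mul_of_nonneg_left hvol (by positivity)
  have h7 : K * (∫ x in T, κ x * (Q x + ((1 : ℝ) : ℂ) • H x).det.re) ≤ K * V1 :=
    mul_le_mul_of_nonneg_left hV1b hK.le
  have h8 : 0 ≤ K * V := by positivity
  refine hmono.trans ?_
  rw [mul_sub, add_mul, one_mul]
  linarith

/-- XBK. -/
theorem xbk (hAYG : S_AYG.{u}) (hWIRT : S_WIRT) (hRHOI : S_RHOI.{u}) (hMOMG : S_MOMG.{u})
    (hNULL0 : Pool.Agent.Helper95.HS.S_NULL0.{u}) (hTRC : Pool.Agent.Helper95.HS.S_TRC)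
    (hRHB : S_RHB.{u}) (hPUE : S_PUE.{u}) (hCMPG : S_CMPG.{u})
    (hSBG : Pool.Agent.Helper95.HS.S_SBG.{u}) (hDENS : Pool.Agent.Helper95.HS.S_DENS.{u})
    (hTRI : Pool.Agent.Helper95.HS.S_TRI.{u}) (hXEX : S_XEX.{u}) : S_XBK.{u} := by
  intro n hn T G _ R H g ψ D β hβ
  have hH := D.ket
  have hE := hH.et
  have hT := hE.isOpen
  obtain ⟨κ, hκ⟩ := hPUE T R hE
  obtain ⟨hr1, hr2, -, hr4, hr5⟩ := hRHOI T R H hE (her_ket hH)
  obtain ⟨hp1, hp2⟩ := hr4 ψ D.psi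
  obtain ⟨V0, V1, hV0, hV⟩ := xv0 hAYG hRHOI hMOMG hNULL0 hXEX D hβ hκ
  obtain ⟨C2, hC2, hAv⟩ := xav hTRC hRHOI hMOMG hRHB D hβ hκ hV0 hV
  -- the bound of the fixed forms
  obtain ⟨K0, hK0, hK0b⟩ := hRHB T R H hE (her_ket hH) (fun x => rho H x + β x)
    (fun x hx => (hr1.herm x hx).add (hβ.psd x hx).isHermitian)
    (fun i j => ((hr1.smooth i j).continuousOn).add ((hβ.chf.smooth i j).continuousOn))
    (Pool.Agent.Helper97.HS.invH_ad hr2 hβ.inv)
  set a : ℝ := K0 + 1 with ha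
  obtain ⟨K, hK, hDb⟩ := hDENS T R H hH κ hκ a
  obtain ⟨C', hSb⟩ := hSBG hn T R H hH κ hκ a K
  set B : ℝ := |C'| * C2 + 1 with hB
  have hBpos : 0 < B := by positivity
  -- uniform bound
  have key : ∀ (δ : ℝ) (Q : Cn n → Matrix (Fin n) (Fin n) ℂ), 0 < δ → δ ≤ 1 →
      BKE T R H β δ Q → ∀ x ∈ T, (Matrix.trace (g x * (Q x)⁻¹)).re ≤ B := by
    intro δ Q hδ hδ1 hQ x hx
    have hQk := hQ.1
    obtain ⟨hφi, hφ⟩ := hr5 Q (her_ket hQk)
    have hLM : ∀ y ∈ T, LM (fun y => ld Q y - ld H y) y = Q y - β y - (δ : ℂ) • H y - rho H y := by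
      intro y hy
      have h1 := hφ y hy
      have h2 := hQ.2 y hy
      rw [h2] at h1
      rw [h1]
      abel
    have hHd : ∀ y ∈ T, (((1 - δ : ℝ) : ℂ) • H y).PosSemidef := fun y hy =>
      smul_psd (hH.posDef y hy).posSemidef (by linarith)
    have p1 : ∀ y ∈ T, ((a : ℂ) • H y - (Q y - LM (fun y => ld Q y - ld H y) y)).PosSemidef := by
      intro y hy
      have e : (a : ℂ) • H y - (Q y - LM (fun y => ld Q y - ld H y) y) =
          ((K0 : ℂ) • H y - (rho H y + β y)) + ((1 - δ : ℝ) : ℂ) • H y := by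
        rw [hLM y hy, ha]
        push_cast
        rw [add_smul, sub_smul]
        abel
      rw [e]
      exact (hK0b y hy).2.add (hHd y hy)
    have p2 : ∀ y ∈ T, ((a : ℂ) • H y + LM (fun y => ld Q y - ld H y) y).PosSemidef := by
      intro y hy
      have e : (a : ℂ) • H y + LM (fun y => ld Q y - ld H y) y =
          ((K0 : ℂ) • H y - (rho H y + β y)) + ((1 - δ : ℝ) : ℂ) • H y + Q y := by
        rw [hLM y hy, ha]
        push_cast
        rw [add_smul, sub_smul]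
        abel
      rw [e]
      exact ((hK0b y hy).2.add (hHd y hy)).add (hQk.posDef y hy).posSemidef
    have hdens := hDb Q hQk p2
    have hti : InvF T R (fun x => (Matrix.trace (g x * (Q x)⁻¹)).re) :=
      (hTRI T R Q hQk).1 g D.smooth D.inv
    have g1 : InvF T R (fun x => (Matrix.trace (g x * (Q x)⁻¹)).re + 1) := by
      refine ⟨hti.1.add contDiffOn_const, fun γ x y hR => ?_⟩
      have := hti.2 γ x y hR
      simp only at this ⊢
      rw [this]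
    have g2 : ∀ y ∈ T, 0 < (Matrix.trace (g y * (Q y)⁻¹)).re + 1 := by
      intro y hy
      have := tr_mul_nonneg (D.psd y hy) (hQk.posDef y hy).posSemidef.inv
      linarith
    have g3 := D.lcl Q hQk fun y hy => by
      have e : Q y - rho Q y = β y + (δ : ℂ) • H y := by
        rw [hQ.2 y hy]
        abel
      rw [e]
      exact (hβ.psd y hy).add (smul_psd (hH.posDef y hy).posSemidef hδ.le)
    have s1 := hSb Q (fun y => ld Q y - ld H y)
      (fun y => (Matrix.trace (g y * (Q y)⁻¹)).re + 1) hQk hφi p1 hdens g1 g2 g3 x hx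
    have s2 := hAv δ Q hδ hδ1 hQ
    have hVp : 0 < Pool.Agent.Helper95.HS.vol T κ Q := (hNULL0 T R Q hQk κ hκ).1
    have hI : 0 ≤ ∫ y in T, κ y * (Q y).det.re * ((Matrix.trace (g y * (Q y)⁻¹)).re + 1) := by
      apply setIntegral_nonneg hT.measurableSet
      intro y hy
      have hd : 0 < (Q y).det.re := (Complex.pos_iff.1 (hQk.posDef y hy).det_pos).1
      exact mul_nonneg (mul_nonneg (hκ.nonneg y) hd.le) (g2 y hy).le
    have s3 : ((Matrix.trace (g x * (Q x)⁻¹)).re + 1) * Pool.Agent.Helper95.HS.vol T κ Q ≤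
        |C'| * C2 * Pool.Agent.Helper95.HS.vol T κ Q := by
      refine s1.trans ?_
      calc C' * ∫ y in T, κ y * (Q y).det.re * ((Matrix.trace (g y * (Q y)⁻¹)).re + 1)
          ≤ |C'| * ∫ y in T, κ y * (Q y).det.re * ((Matrix.trace (g y * (Q y)⁻¹)).re + 1) :=
            mul_le_mul_of_nonneg_right (le_abs_self _) hI
        _ ≤ |C'| * (C2 * Pool.Agent.Helper95.HS.vol T κ Q) :=
            mul_le_mul_of_nonneg_left s2 (abs_nonneg _)
        _ = _ := by ring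
    have s4 : (Matrix.trace (g x * (Q x)⁻¹)).re + 1 ≤ |C'| * C2 :=
      le_of_mul_le_mul_right s3 hVp
    rw [hB]
    linarith
  -- the lower bound `c`
  have hYher : HerT T R (fun x => rho H x + LM ψ x + g x) := by
    refine ⟨D.pos, fun i j => ?_, ?_⟩
    · exact ((hr1.smooth i j).add (hp1.smooth i j)).add (D.smooth i j)
    · exact Pool.Agent.Helper97.HS.invH_ad (Pool.Agent.Helper97.HS.invH_ad hr2 hp2) D.inv
  obtain ⟨c₁, C, hc₁, hC, hcmp⟩ := hCMPG T R H _ hH hYher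
  set c : ℝ := C⁻¹ with hc
  have hc0 : 0 < c := inv_pos.2 hC
  have hcY : ∀ x ∈ T, (rho H x + LM ψ x + g x - (c : ℂ) • H x).PosSemidef := by
    intro x hx
    have h1 := ((hcmp x hx).2).smul (Complex.zero_le_real.2 hc0.le)
    have e : (c : ℂ) • ((C : ℂ) • (rho H x + LM ψ x + g x) - H x) =
        rho H x + LM ψ x + g x - (c : ℂ) • H x := by
      rw [smul_sub, smul_smul, ← Complex.ofReal_mul, hc, inv_mul_cancel₀ hC.ne',
        Complex.ofReal_one, one_smul]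
    rwa [e] at h1
  -- the choice of `δ`
  set d : ℝ := B⁻¹ with hd
  have hd0 : 0 < d := inv_pos.2 hBpos
  have hd1 : 0 < 1 + d := by linarith
  set δ : ℝ := min 1 (d * c / 2) with hδ
  have hδ0 : 0 < δ := lt_min one_pos (by positivity)
  have hδ1 : δ ≤ 1 := min_le_left _ _
  have hδ2 : δ ≤ d * c / 2 := min_le_right _ _
  obtain ⟨Q, hQ⟩ := xb1 hAYG hRHOI hXEX D hβ hδ0
  have hQk := hQ.1
  have hdt : ∀ x ∈ T, d * (Matrix.trace (g x * (Q x)⁻¹)).re ≤ 1 := by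
    intro x hx
    have h1 := mul_le_mul_of_nonneg_left (key δ Q hδ0 hδ1 hQ x hx) hd0.le
    rwa [hd, inv_mul_cancel₀ hBpos.ne'] at h1
  obtain ⟨hwi, hwr⟩ := hr5 Q (her_ket hQk)
  set w : Cn n → ℝ := fun x => ld Q x - ld H x with hw
  set e₀ : ℝ := (1 + d)⁻¹ with he₀
  have he0 : 0 < e₀ := inv_pos.2 hd1
  have hed : e₀ * (1 + d) = 1 := inv_mul_cancel₀ hd1.ne'
  set X₁ : Cn n → Matrix (Fin n) (Fin n) ℂ := fun x =>
    (e₀ : ℂ) • (Q x + (d : ℂ) • (rho H x + LM ψ x + β x)) with hX₁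
  have hX₁c : CHF X₁ T := Pool.Agent.Helper97.HS.chf_sm hT (Pool.Agent.Helper97.HS.chf_ad hT
    (chf_ket hQk) (Pool.Agent.Helper97.HS.chf_sm hT (Pool.Agent.Helper97.HS.chf_ad hT
      (Pool.Agent.Helper97.HS.chf_ad hT hr1 hp1) hβ.chf) d)) e₀
  have hX₁i : InvH R X₁ := Pool.Agent.Helper97.HS.invH_sm (Pool.Agent.Helper97.HS.invH_ad
    hQk.inv (Pool.Agent.Helper97.HS.invH_sm (Pool.Agent.Helper97.HS.invH_ad
      (Pool.Agent.Helper97.HS.invH_ad hr2 hp2) hβ.inv) (d : ℂ))) (e₀ : ℂ)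
  have hX : KEt T R fun x => X₁ x - ((e₀ * δ : ℝ) : ℂ) • H x := by
    refine lin_comb hH hX₁c hX₁i _ fun x hx => ?_
    have e : X₁ x - ((e₀ * δ : ℝ) : ℂ) • H x = (e₀ : ℂ) • ((Q x - (d : ℂ) • g x) +
        (d : ℂ) • (rho H x + LM ψ x + g x - (c : ℂ) • H x) + (d : ℂ) • β x +
        ((d * c - δ : ℝ) : ℂ) • H x) := by
      simp only [hX₁]
      push_cast
      module
    rw [e]
    refine Matrix.PosDef.smul ?_ (Complex.zero_lt_real.2 he0)
    refine Matrix.PosDef.posSemidef_add ?_ ((hH.posDef x hx).smul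
      (Complex.zero_lt_real.2 (by nlinarith)))
    exact ((sub_psd (hQk.posDef x hx) (D.psd x hx) hd0.le (hdt x hx)).add
      ((hcY x hx).smul (Complex.zero_le_real.2 hd0.le))).add
      ((hβ.psd x hx).smul (Complex.zero_le_real.2 hd0.le))
  have hfi : InvF T R (fun x => e₀ * w x + (e₀ * d) * ψ x) := invF_lin hwi D.psi e₀ (e₀ * d)
  obtain ⟨Q', hQ', hQe⟩ := of_pot hAYG hWIRT hRHOI (X₀ := β) hH hX hfi (fun x hx => by
    rw [Pool.Agent.Helper94.HS.LM_lin hWIRT hT hwi.1 D.psi.1 e₀ (e₀ * d) hx]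
    have h1 := hQ.2 x hx
    rw [hwr x hx] at h1
    have h2 : Q x = rho H x + LM w x + β x + (δ : ℂ) • H x := by
      rw [h1]; abel
    have h3 : rho H x + β x = ((e₀ * (1 + d) : ℝ) : ℂ) • (rho H x + β x) := by
      rw [hed, Complex.ofReal_one, one_smul]
    simp only [hX₁]
    rw [h2]
    conv_rhs => rw [h3]
    push_cast
    module)
  refine ⟨Q', hQ', fun x hx => ?_⟩
  rw [hQe x hx, Complex.ofReal_zero, zero_smul, sub_zero]

end Pool.Agent.Helper57.HX
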