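import Pool.Agent.Helper57.HX.Bk
import Pool.Agent.Helper57.RBC.AsmL

/-!
# HX: assembly (`S_AYG` is an argument)
-/

open Complex Metric Set Filter Topology MeasureTheory
open scoped ContDiff ComplexConjugate ComplexOrder Manifold Matrix

namespace Pool.Agent.Helper57.HX.Asm

open Pool.Agent.Helper95.Lin Pool.Agent.Helper16.Abund Pool.Agent.Helper92.Orb
  Pool.Agent.Helper10.SP Pool.Agent.Helper95.RK Pool.Agent.Helper57.HS
  Pool.Agent.Helper15.HS Pool.Agent.Helper10.HS Pool.Agent.Helper15.RK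
  Pool.Agent.Helper10.SP.Asm Pool.Agent.Helper15.HS.Asm Pool.Agent.Helper15.GS
  Pool.Agent.Helper15.GS.Asm Pool.Agent.Helper57.RBC Pool.Agent.Helper57.RBC.Asm
  Pool.Agent.Helper57.HX

universe u

theorem t_XBG : S_XBG.{u} := xbg t_WIRT t_RHOI
theorem t_XMON : S_XMON.{u} := xmon t_MAXF t_TRI

section AYG
variable (hAYG : S_AYG.{u})
include hAYG

theorem t_XEX : S_XEX.{u} := xex hAYG t_WIRT t_RHOI t_CMPG t_MAXF t_TRI
theorem t_XSEQ : S_XSEQ.{u} := xseq t_MAXF t_TRI t_CMP t_XBG (t_XEX hAYG) t_XMON t_RFAM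
theorem t_XBK : S_XBK.{u} :=
  xbk hAYG t_WIRT t_RHOI t_MOMG t_NULL0 t_TRC t_RHB t_PUE t_CMPG (t_SBG hAYG) t_DENS t_TRI
    (t_XEX hAYG)

end AYG

end Pool.Agent.Helper57.HX.Asm
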