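import Pool.Agent.Helper29.HB.GoalsB
import Pool.Agent.Helper19.HS.LPR

/-!
# WCC: closed conditions pass to the weighted limit (matrices of any size)
-/

open Complex Metric Set Filter Topology MeasureTheory
open scoped ContDiff ComplexConjugate ComplexOrder Manifold Matrix

namespace Pool.Agent.Helper57.HX

open Pool.Agent.Helper95.Lin Pool.Agent.Helper16.Abund Pool.Agent.Helper92.Orb
  Pool.Agent.Helper10.SP Pool.Agent.Helper95.RK Pool.Agent.Helper57.HS
  Pool.Agent.Helper15.HS Pool.Agent.Helper19.HS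
open Pool.Agent.Helper29.HB (WL S_WCC)

universe u

variable {n m : ℕ}

theorem dist_pi_le_sum (X Y : Fin m → Fin m → ℂ) :
    dist X Y ≤ ∑ a, ∑ c, ‖X a c - Y a c‖ := by
  have h0 : 0 ≤ ∑ a, ∑ c, ‖X a c - Y a c‖ :=
    Finset.sum_nonneg fun a _ => Finset.sum_nonneg fun c _ => norm_nonneg _
  refine (dist_pi_le_iff h0).2 fun a => (dist_pi_le_iff h0).2 fun c => ?_
  rw [dist_eq_norm]
  refine (Finset.single_le_sum (f := fun c => ‖X a c - Y a c‖)
    (fun _ _ => norm_nonneg _) (Finset.mem_univ c)).trans ?_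
  exact Finset.single_le_sum (f := fun a => ∑ c, ‖X a c - Y a c‖)
    (fun _ _ => Finset.sum_nonneg fun _ _ => norm_nonneg _) (Finset.mem_univ a)

/-- A continuous function is almost Lipschitz on compact sets. -/
theorem unif_lip {T C : Set (Cn n)} (hCT : C ⊆ T) (hC : IsCompact C)
    {Φ : Cn n → Matrix (Fin m) (Fin m) ℂ → ℝ}
    (hΦ : ContinuousOn (fun q : Cn n × Matrix (Fin m) (Fin m) ℂ => Φ q.1 q.2) (T ×ˢ univ))
    (K : ℝ) {η : ℝ} (hη : 0 < η) : ∃ M : ℝ, 0 ≤ M ∧ ∀ x ∈ C,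
    ∀ X Y : Matrix (Fin m) (Fin m) ℂ, (∀ a c, ‖X a c‖ ≤ K) → (∀ a c, ‖Y a c‖ ≤ K) →
    Φ x Y ≤ Φ x X + (η + M * ∑ a, ∑ c, ‖X a c - Y a c‖) := by
  set Ψ : Cn n × (Fin m → Fin m → ℂ) → ℝ := fun q => Φ q.1 (Matrix.of q.2) with hΨ
  have hΨc : ContinuousOn Ψ (T ×ˢ univ) := hΦ
  set B : Set (Fin m → Fin m → ℂ) := Set.pi univ fun _ => Set.pi univ fun _ => closedBall 0 K
  have hBc : IsCompact B := isCompact_univ_pi fun _ => isCompact_univ_pi fun _ =>
    isCompact_closedBall _ _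
  have hCB : IsCompact (C ×ˢ B) := hC.prod hBc
  have hsub : C ×ˢ B ⊆ T ×ˢ univ := fun q hq => ⟨hCT hq.1, mem_univ _⟩
  have hcc := hΨc.mono hsub
  obtain ⟨M0, hM0⟩ := hCB.exists_bound_of_continuousOn hcc
  have hu := hCB.uniformContinuousOn_of_continuous hcc
  obtain ⟨δ, hδ, hδu⟩ := Metric.uniformContinuousOn_iff.1 hu η hη
  refine ⟨2 * |M0| / δ, by positivity, fun x hx X Y hX hY => ?_⟩
  have mX : ((x, X) : Cn n × (Fin m → Fin m → ℂ)) ∈ C ×ˢ B := ⟨hx, fun a _ => fun c _ => by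
    rw [mem_closedBall_zero_iff]
    exact hX a c⟩
  have mY : ((x, Y) : Cn n × (Fin m → Fin m → ℂ)) ∈ C ×ˢ B := ⟨hx, fun a _ => fun c _ => by
    rw [mem_closedBall_zero_iff]
    exact hY a c⟩
  have hs0 : 0 ≤ ∑ a, ∑ c, ‖X a c - Y a c‖ :=
    Finset.sum_nonneg fun a _ => Finset.sum_nonneg fun c _ => norm_nonneg _
  rcases lt_or_ge (∑ a, ∑ c, ‖X a c - Y a c‖) δ with h | h
  · have h1 : dist ((x, X) : Cn n × (Fin m → Fin m → ℂ)) ((x, Y) : Cn n × (Fin m → Fin m → ℂ)) < δ := by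
      rw [Prod.dist_eq, dist_self]
      exact max_lt hδ (lt_of_le_of_lt (dist_pi_le_sum _ _) h)
    have h2 := hδu _ mX _ mY h1
    rw [Real.dist_eq] at h2
    have h3 := (abs_lt.1 h2).1
    have e1 : Ψ ((x, X) : Cn n × (Fin m → Fin m → ℂ)) = Φ x X := rfl
    have e2 : Ψ ((x, Y) : Cn n × (Fin m → Fin m → ℂ)) = Φ x Y := rfl
    rw [e1, e2] at h3
    have h4 : 0 ≤ 2 * |M0| / δ * ∑ a, ∑ c, ‖X a c - Y a c‖ := by positivity
    linarith
  · have h2 := hM0 _ mX
    have h3 := hM0 _ mY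
    have e1 : Ψ ((x, X) : Cn n × (Fin m → Fin m → ℂ)) = Φ x X := rfl
    have e2 : Ψ ((x, Y) : Cn n × (Fin m → Fin m → ℂ)) = Φ x Y := rfl
    rw [e1, Real.norm_eq_abs] at h2
    rw [e2, Real.norm_eq_abs] at h3
    have h5 : 2 * |M0| ≤ 2 * |M0| / δ * ∑ a, ∑ c, ‖X a c - Y a c‖ := by
      rw [div_mul_eq_mul_div, le_div_iff₀ hδ]
      exact mul_le_mul_of_nonneg_left h (by positivity)
    have h6 := (abs_le.1 h2).1
    have h7 := (abs_le.1 h3).2
    have h8 := le_abs_self M0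
    linarith

theorem WL.lim {T : Set (Cn n)} {w : ℕ → Cn n → ℝ}
    {Z : ℕ → Cn n → Matrix (Fin m) (Fin m) ℂ} {P : Cn n → Matrix (Fin m) (Fin m) ℂ}
    (h : WL T w Z P) {C : Set (Cn n)} (hCT : C ⊆ T) (hC : IsCompact C) :
    Tendsto (fun j => ∫ x in C, w j x * Df (Z j) P x) atTop (𝓝 0) := by
  have h1 : ∀ j, ∫ x in C, w j x * Df (Z j) P x =
      ∑ a, ∑ c, ∫ x in C, w j x * ‖Z j x a c - P x a c‖ := by
    intro j
    have hi : ∀ a c, IntegrableOn (fun x => w j x * ‖Z j x a c - P x a c‖) C := fun a c =>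
      (((h.wc j).mul ((h.Zc j a c).sub (h.Pc a c)).norm).mono hCT).integrableOn_compact hC
    unfold Df
    simp only [Finset.mul_sum]
    rw [integral_finsetSum _ fun a _ => integrable_finsetSum _ fun c _ => hi a c]
    refine Finset.sum_congr rfl fun a _ => ?_
    rw [integral_finsetSum _ fun c _ => hi a c]
  simp only [h1]
  have h2 : Tendsto (fun j => ∑ a, ∑ c, ∫ x in C, w j x * ‖Z j x a c - P x a c‖) atTop
      (𝓝 (∑ _a : Fin m, ∑ _c : Fin m, (0 : ℝ))) :=
    tendsto_finsetSum _ fun a _ => tendsto_finsetSum _ fun c _ => h.conv C hCT hC a c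
  simpa using h2

/-- WCC. -/
theorem wcc : S_WCC := by
  intro n m T w Z P h Φ hΦ E hE hle hlim
  have hPc : ContinuousOn P T := continuousOn_pi.2 fun i => continuousOn_pi.2 fun j => h.Pc i j
  have hFc : ContinuousOn (fun x => Φ x (P x)) T :=
    hΦ.comp (continuousOn_id.prodMk hPc) fun x hx => ⟨hx, mem_univ _⟩
  have main : ∀ η > 0, ∀ x ∈ T, Φ x (P x) - η ≤ 0 := by
    intro η hη
    refine keyZ h.op subset_rfl h.wc h.w0 h.low (hFc.sub continuousOn_const) ?_
    intro C hCT hC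
    obtain ⟨K₁, hK₁⟩ := h.Zb C hCT hC
    obtain ⟨K₂, hK₂0, hK₂⟩ := bddM hC (f := P) fun a c => (h.Pc a c).mono hCT
    obtain ⟨M, hM0, hM⟩ := unif_lip hCT hC hΦ (max K₁ K₂) hη
    refine ⟨1, fun j x => M * Df (Z j) P x + E j x, ?_, ?_, ?_⟩
    · intro j
      exact (continuousOn_const.mul (Df_cont (fun a c => (h.Zc j a c).mono hCT)
        fun a c => (h.Pc a c).mono hCT)).add ((hE j).mono hCT)
    · intro j x hx
      have h1 := hM x hx (Z j x) (P x) (fun a c => (hK₁ j x hx a c).trans (le_max_left _ _))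
        (fun a c => (hK₂ x hx a c).trans (le_max_right _ _))
      have h2 := hle j x (hCT hx)
      have h3 : ∑ a, ∑ c, ‖Z j x a c - P x a c‖ = Df (Z j) P x := rfl
      rw [h3] at h1
      show Φ x (P x) - η ≤ 1 * (M * Df (Z j) P x + E j x)
      linarith
    · have h1 := ((WL.lim h hCT hC).const_mul M).add (hlim C hCT hC)
      rw [mul_zero, add_zero] at h1
      refine h1.congr fun j => ?_
      rw [← integral_const_mul, ← integral_add]
      · refine integral_congr_ae (Filter.Eventually.of_forall fun x => ?_)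
        simp only
        ring
      · exact ((((h.wc j).mono hCT).mul (Df_cont (fun a c => (h.Zc j a c).mono hCT)
          fun a c => (h.Pc a c).mono hCT)).integrableOn_compact hC).const_mul _
      · exact (((h.wc j).mono hCT).mul ((hE j).mono hCT)).integrableOn_compact hC
  intro x hx
  refine le_of_forall_pos_le_add fun η hη => ?_
  have := main η hη x hx
  linarith

end Pool.Agent.Helper57.HX
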