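import Pool.Agent.Helper57.HX.Defs
import Pool.Agent.Helper82.HB.Defs

/-!
# The link of `XDat` with the data `HDat` of the theorem HB
-/

open Complex Metric Set Filter Topology MeasureTheory
open scoped ContDiff ComplexConjugate ComplexOrder Manifold Matrix

namespace Pool.Agent.Helper57.HX

open Pool.Agent.Helper95.Lin Pool.Agent.Helper16.Abund Pool.Agent.Helper92.Orb
  Pool.Agent.Helper10.SP Pool.Agent.Helper95.RK Pool.Agent.Helper57.HS
  Pool.Agent.Helper15.HS Pool.Agent.Helper15.GS Pool.Agent.Helper57.RBC Pool.Agent.Helper82.HB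

universe u v

/-- HX. `HDat` gives `XDat` for `g = σ h σᴴ`.
PROOF. `psd`, `smooth`, `inv` clear. `SCL`: `trL Q tS = - tr (rho Q K g K) + AAs + NKs`, `AAs ≥ 0`, `NKs ≥ 0` (`NegS`). For `lcl`, `t := tS`: `trL Q (log (t + 1)) =
trL Q t/(t + 1) - |cd t|²/(t + 1)²`, `|cd t|² ≤ t AAs` (Cauchy–Schwarz), `tr (rho Q K g K) ≤ tr (Q K g K) = t`, so it is
`≥ (- t + AAs)/(t + 1) - t AAs/(t + 1)² ≥ -1`. -/
def S_HX : Prop := ∀ {n m : ℕ} (T : Set (Cn n)) {G : Type u} [Group G]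
  (R : G → Cn n → Cn n → Prop) (H : Cn n → Matrix (Fin n) (Fin n) ℂ)
  (σ : Cn n → Matrix (Fin n) (Fin m) ℂ) (h : Cn n → Matrix (Fin m) (Fin m) ℂ) (ψ : Cn n → ℝ),
  HDat T R H σ h ψ → XDat T R H (gS σ h) ψ

end Pool.Agent.Helper57.HX
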