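import Pool.Agent.Helper57.HX.LimH
import Pool.Agent.Helper57.HX.Wcc
import Pool.Agent.Helper57.HX.AsmX
import Pool.Agent.Helper82.HB.SLG

/-!
# HB: assembly of block L (`S_AYG` is an argument)
-/

open Complex Metric Set Filter Topology MeasureTheory
open scoped ContDiff ComplexConjugate ComplexOrder Manifold Matrix

namespace Pool.Agent.Helper57.HX.Asm

open Pool.Agent.Helper95.Lin Pool.Agent.Helper16.Abund Pool.Agent.Helper92.Orb
  Pool.Agent.Helper10.SP Pool.Agent.Helper95.RK Pool.Agent.Helper57.HS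
  Pool.Agent.Helper15.HS Pool.Agent.Helper10.HS Pool.Agent.Helper15.RK
  Pool.Agent.Helper10.SP.Asm Pool.Agent.Helper15.HS.Asm Pool.Agent.Helper15.GS
  Pool.Agent.Helper15.GS.Asm Pool.Agent.Helper57.RBC Pool.Agent.Helper57.RBC.Asm
  Pool.Agent.Helper57.HX

universe u

theorem h_SCL : Pool.Agent.Helper82.HB.S_SCL.{u} :=
  Pool.Agent.Helper82.HB.scl t_CSY t_TRI t_KETP t_RHOI t_IFN
theorem h_SLG : Pool.Agent.Helper82.HB.S_SLG.{u} := Pool.Agent.Helper82.HB.slg h_SCL t_CHN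
theorem t_HX : S_HX.{u} := Pool.Agent.Helper82.HB.hx h_SCL t_CHN
theorem t_HVD : S_HVD.{u} := hvd t_WIRT t_DETI t_MAXF t_TRI t_KETP h_SCL
theorem t_SDB : S_SDB.{u} := sdb
theorem t_SDK : S_SDK.{u} := sdk
theorem t_WCC : Pool.Agent.Helper29.HB.S_WCC := wcc

section AYG
variable (hAYG : S_AYG.{u})
include hAYG

theorem t_HVC : S_HVC.{u} := hvc t_MAXF (t_RWT hAYG) t_HVD t_RLG t_RVZ h_SCL
theorem t_HLC : S_HLC.{u} :=
  hlc t_HX (t_XSEQ hAYG) (t_HVC hAYG) (t_RWT hAYG) t_HVD t_RAC t_LIMG t_LOWQ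
theorem h_HEX : Pool.Agent.Helper82.HB.S_HEX.{u} := fun _ T _ _ R H σ h ψ D =>
  t_XEX hAYG T R H (Pool.Agent.Helper82.HB.gS σ h) ψ (t_HX T R H σ h ψ D)

end AYG

end Pool.Agent.Helper57.HX.Asm
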