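import Pool.Agent.Helper57.HX.GoalsH
import Pool.Agent.Helper82.HB.GoalsB
import Pool.Agent.Helper29.HB.GoalsB

/-!
# HB, block L part 1: the functions `v_j`, their averages, and the limit of the endomorphisms
`X_j = ε_j h σᴴ Q_j⁻¹ σ` (statements; definitions of `Helper82/HB/Defs.lean`)
-/

open Complex Metric Set Filter Topology MeasureTheory
open scoped ContDiff ComplexConjugate ComplexOrder Manifold Matrix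

namespace Pool.Agent.Helper57.HX

open Pool.Agent.Helper95.Lin Pool.Agent.Helper16.Abund Pool.Agent.Helper92.Orb
  Pool.Agent.Helper10.SP Pool.Agent.Helper95.RK Pool.Agent.Helper57.HS
  Pool.Agent.Helper15.HS Pool.Agent.Helper15.GS Pool.Agent.Helper57.RBC Pool.Agent.Helper82.HB
open Pool.Agent.Helper10.RBC (dn)
open Pool.Agent.Helper29.HB (WL S_WCC S_WIN)

universe u v

/-- HVD. The function `v = S - ε tr (g Q⁻¹)` (as RVD). -/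
def S_HVD : Prop := ∀ {n m : ℕ} (T : Set (Cn n)) {G : Type u} [Group G]
  (R : G → Cn n → Cn n → Prop) (H' : Cn n → Matrix (Fin n) (Fin n) ℂ)
  (σ : Cn n → Matrix (Fin n) (Fin m) ℂ) (h : Cn n → Matrix (Fin m) (Fin m) ℂ), KEt T R H' →
  SD T R σ h → ∀ κ, IsPUE T R κ → ∀ (S ε : ℝ) (Q : Cn n → Matrix (Fin n) (Fin n) ℂ), 0 < ε →
  SupB T (gS σ h) H' S → TKE T R H' ε Q →
  InvF T R (fun x => S - ε * tS σ h Q x) ∧ (∀ x ∈ T, 0 ≤ S - ε * tS σ h Q x) ∧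
  (∀ x ∈ T, (trL Q (fun y => S - ε * tS σ h Q y) x).re ≤ S - ε * tS σ h Q x) ∧
  ContinuousOn (fun x => ε * (AAs σ h Q x + NKs σ h Q x)) T ∧
  (∀ x ∈ T, 0 ≤ ε * AAs σ h Q x ∧ 0 ≤ ε * NKs σ h Q x) ∧
  (∀ γ x y, R γ x y → ε * (AAs σ h Q y + NKs σ h Q y) = ε * (AAs σ h Q x + NKs σ h Q x)) ∧
  avE T κ Q (fun x => ε * (AAs σ h Q x + NKs σ h Q x)) ≤
    avE T κ Q (fun x => S - ε * tS σ h Q x)

/-- HVC. `E_j[v_j] → 0` (as RVC). -/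
def S_HVC : Prop := ∀ {n m : ℕ}, 0 < n → ∀ (T : Set (Cn n)) {G : Type u} [Group G]
  (R : G → Cn n → Cn n → Prop) (H : Cn n → Matrix (Fin n) (Fin n) ℂ)
  (σ : Cn n → Matrix (Fin n) (Fin m) ℂ) (h : Cn n → Matrix (Fin m) (Fin m) ℂ), KEt T R H →
  SD T R σ h → ∀ κ, IsPUE T R κ →
  ∀ (s : ℝ) (S N : ℕ → ℝ) (φ : ℕ → Cn n → ℝ) (H' : ℕ → Cn n → Matrix (Fin n) (Fin n) ℂ)
    (ε : ℕ → ℝ) (Q : ℕ → Cn n → Matrix (Fin n) (Fin n) ℂ),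
    SeqR T R H (gS σ h) s S N φ H' ε Q →
  Tendsto (fun j => avE T κ (Q j) fun x => S j - ε j * tS σ h (Q j) x) atTop (𝓝 0)

/-- SDB. The endomorphism `X = XS ε σ h Q`: smooth, `h`-selfadjoint, positive, trace, bounds on compact sets.
PROOF. `K = Q⁻¹ = zᴴ z`, `h = b bᴴ`: `X h = ε (σ h)ᴴ K (σ h)`, `b⁻¹ X b = ε (z σ b)ᴴ (z σ b)` is positive semidefinite with trace `ε tS`, so its entries are `≤ ε tS`; `b`, `b⁻¹` are bounded on `C`. `cdbR l X = ε h τ_lᴴ K σ` (`SCL`), so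
`b⁻¹ (cdbR l X) b = (√ε z τ_l b)ᴴ (√ε z σ b)`, Frobenius norm squared `≤ ε tr (τ_l h τ_lᴴ K) ε tS`; `∑ K l k tr (τ_k h τ_lᴴ K) ≥ (1/tr (Q H⁻¹)) ∑ H⁻¹ l k tr (τ_k h τ_lᴴ K)`. -/
def S_SDB : Prop := ∀ {n m : ℕ} (T : Set (Cn n)) {G : Type u} [Group G]
  (R : G → Cn n → Cn n → Prop) (H : Cn n → Matrix (Fin n) (Fin n) ℂ)
  (σ : Cn n → Matrix (Fin n) (Fin m) ℂ) (h : Cn n → Matrix (Fin m) (Fin m) ℂ), KEt T R H →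
  SD T R σ h →
  (∀ (ε : ℝ) (Q : Cn n → Matrix (Fin n) (Fin n) ℂ), 0 < ε → KEt T R Q →
    (∀ a c, ContDiffOn ℝ ∞ (fun x => XS ε σ h Q x a c) T) ∧
    ∀ x ∈ T, XS ε σ h Q x * h x = h x * (XS ε σ h Q x)ᴴ ∧
      (XS ε σ h Q x * h x).PosSemidef ∧
      Matrix.trace (XS ε σ h Q x) = ((ε * tS σ h Q x : ℝ) : ℂ)) ∧
  ∀ C ⊆ T, IsCompact C → ∃ K : ℝ, 0 < K ∧ ∀ (ε : ℝ) (Q : Cn n → Matrix (Fin n) (Fin n) ℂ),
  0 < ε → KEt T R Q → ∀ x ∈ C, (∀ a c, ‖XS ε σ h Q x a c‖ ≤ K * (ε * tS σ h Q x)) ∧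
  ∀ l a c, ‖cdb l (fun y => XS ε σ h Q y a c) x‖ ^ 2 ≤
    K * (Matrix.trace (Q x * (H x)⁻¹)).re * (ε * AAs σ h Q x) * (ε * tS σ h Q x)

/-- SDK. The curvature against `X`: `κ_kl = tr (RE k l X) = ε tr (σ RE_kl h σᴴ K)` is positive semidefinite in `(k, l)` (`NegS`), so `|κ_kl| ≤ ∑ κ_kk ≤ c tr (Q H⁻¹) ∑ K l k
κ_kl`. -/
def S_SDK : Prop := ∀ {n m : ℕ} (T : Set (Cn n)) {G : Type u} [Group G]
  (R : G → Cn n → Cn n → Prop) (H : Cn n → Matrix (Fin n) (Fin n) ℂ)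
  (σ : Cn n → Matrix (Fin n) (Fin m) ℂ) (h : Cn n → Matrix (Fin m) (Fin m) ℂ), KEt T R H →
  SD T R σ h → ∀ C ⊆ T, IsCompact C → ∃ K : ℝ, 0 < K ∧
  ∀ (ε : ℝ) (Q : Cn n → Matrix (Fin n) (Fin n) ℂ), 0 < ε → KEt T R Q → ∀ x ∈ C, ∀ k l,
    ‖Matrix.trace (RE h k l x * XS ε σ h Q x)‖ ≤
      K * (Matrix.trace (Q x * (H x)⁻¹)).re * (ε * NKs σ h Q x)

/-- The minimising sequences and the limit `X` of `X_j`. -/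
structure LimE {n m : ℕ} (T : Set (Cn n)) {G : Type u} [Group G] (R : G → Cn n → Cn n → Prop)
    (κ : Cn n → ℝ) (H : Cn n → Matrix (Fin n) (Fin n) ℂ) (σ : Cn n → Matrix (Fin n) (Fin m) ℂ)
    (h X : Cn n → Matrix (Fin m) (Fin m) ℂ) (s : ℝ) (S N : ℕ → ℝ) (φ : ℕ → Cn n → ℝ)
    (H' : ℕ → Cn n → Matrix (Fin n) (Fin n) ℂ) (ε : ℕ → ℝ)
    (Q : ℕ → Cn n → Matrix (Fin n) (Fin n) ℂ) : Prop where
  seq : SeqR T R H (gS σ h) s S N φ H' ε Q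
  wl : WL T (fun j => dn T κ H (Q j)) (fun j => XS (ε j) σ h (Q j)) X
  holo : ∀ a b, DifferentiableOn ℂ (fun x => X x a b) T
  winv : ∀ j γ x y, R γ x y → dn T κ H (Q j) y = dn T κ H (Q j) x
  wb : ∃ K : ℝ, 0 < K ∧ ∀ j, ∀ x ∈ T, 0 < dn T κ H (Q j) x ∧ dn T κ H (Q j) x ≤ K
  gB : ∀ C ⊆ T, IsCompact C → ∃ B : ℝ, ∀ j, ∫ x in C, (Matrix.trace (Q j x * (H x)⁻¹)).re ≤ B
  v : ∀ C ⊆ T, IsCompact C → Tendsto (fun j => ∫ x in C, dn T κ H (Q j) x *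
    (S j - ε j * tS σ h (Q j) x)) atTop (𝓝 0)
  err : ∀ C ⊆ T, IsCompact C → Tendsto (fun j => ∫ x in C, dn T κ H (Q j) x *
    (ε j * (AAs σ h (Q j) x + NKs σ h (Q j) x))) atTop (𝓝 0)

/-- HLC. The limit exists. -/
def S_HLC : Prop := ∀ {n m : ℕ}, 0 < n → ∀ (T : Set (Cn n)) {G : Type u} [Group G]
  (R : G → Cn n → Cn n → Prop) (H : Cn n → Matrix (Fin n) (Fin n) ℂ)
  (σ : Cn n → Matrix (Fin n) (Fin m) ℂ) (h : Cn n → Matrix (Fin m) (Fin m) ℂ) (ψ : Cn n → ℝ),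
  HDat T R H σ h ψ → ∀ κ, IsPUE T R κ →
  ∃ (s : ℝ) (S N : ℕ → ℝ) (φ : ℕ → Cn n → ℝ) (H' : ℕ → Cn n → Matrix (Fin n) (Fin n) ℂ)
    (ε : ℕ → ℝ) (Q : ℕ → Cn n → Matrix (Fin n) (Fin n) ℂ)
    (X : Cn n → Matrix (Fin m) (Fin m) ℂ), LimE T R κ H σ h X s S N φ H' ε Q

end Pool.Agent.Helper57.HX
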