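import Pool.Agent.Helper57.HX.GoalsL
import Pool.Agent.Helper57.HX.Ex
import Pool.Agent.Helper82.HB.SCL
import Pool.Agent.Helper94.GS.GDZ

/-!
# HB, block L part 2: the endomorphism `X = ε h σᴴ Q⁻¹ σ` and the curvature against it (SDB, SDK)
-/

open Complex Metric Set Filter Topology MeasureTheory
open scoped ContDiff ComplexConjugate ComplexOrder Manifold Matrix

namespace Pool.Agent.Helper57.HX

open Pool.Agent.Helper95.Lin Pool.Agent.Helper16.Abund Pool.Agent.Helper92.Orb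
  Pool.Agent.Helper10.SP Pool.Agent.Helper95.RK Pool.Agent.Helper57.HS
  Pool.Agent.Helper15.HS Pool.Agent.Helper15.GS Pool.Agent.Helper57.RBC Pool.Agent.Helper82.HB
open Pool.Agent.Helper10.RBC (dn)
open Pool.Agent.Helper45.HS (SmM)
open Pool.Agent.Helper62.HS (frq frq_nonneg frq_eq)
open Pool.Agent.Helper16.HS (sum_split)
open Pool.Agent.Helper56.HS.DBZ (trace_nonneg)

universe u

/-! ## Linear algebra -/

theorem fac {n : ℕ} {K : Matrix (Fin n) (Fin n) ℂ} (hK : K.PosSemidef) :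
    ∃ S : Matrix (Fin n) (Fin n) ℂ, K = Sᴴ * S := by
  open scoped MatrixOrder in
  exact CStarAlgebra.nonneg_iff_eq_star_mul_self.mp hK.nonneg

/-- `∑ U l k tr (A_k h A_lᴴ K) ≥ 0` for positive semidefinite `U`, `h`, `K`. -/
theorem grad_nonneg {n m : ℕ} {U K : Matrix (Fin n) (Fin n) ℂ} {h : Matrix (Fin m) (Fin m) ℂ}
    (hU : U.PosSemidef) (hK : K.PosSemidef) (hh : h.PosSemidef)
    (A : Fin n → Matrix (Fin n) (Fin m) ℂ) :
    0 ≤ (∑ k, ∑ l, U l k * Matrix.trace (A k * h * (A l)ᴴ * K)).re := by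
  obtain ⟨S, hS⟩ := fac hU
  have e : ∑ k, ∑ l, U l k * Matrix.trace (A k * h * (A l)ᴴ * K) =
      ∑ a, Matrix.trace ((∑ k, S a k • A k) * h * (∑ k, S a k • A k)ᴴ * K) := by
    conv_lhs => rw [hS]
    rw [sum_split]
    refine Finset.sum_congr rfl fun a _ => ?_
    simp only [Matrix.conjTranspose_sum, Matrix.conjTranspose_smul, Matrix.sum_mul,
      Matrix.smul_mul, Matrix.mul_smul, Matrix.trace_sum, Matrix.trace_smul,
      smul_eq_mul, Finset.mul_sum, Matrix.mul_sum]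
    rw [Finset.sum_comm]
    refine Finset.sum_congr rfl fun k _ => Finset.sum_congr rfl fun l _ => ?_
    change _ = conj (S a k) * (S a l * _)
    ring
  rw [e, Complex.re_sum]
  exact Finset.sum_nonneg fun a _ => trace_nonneg (hh.mul_mul_conjTranspose_same _) hK

/-- `∑ U l k tr (F_kl K) ≥ 0` for positive semidefinite `U`, `K`. -/
theorem curv_nonneg {n : ℕ} {U K : Matrix (Fin n) (Fin n) ℂ} (hU : U.PosSemidef)
    (hK : K.PosSemidef) (F : Fin n → Fin n → Matrix (Fin n) (Fin n) ℂ)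
    (hF : ∀ u w : Cn n, 0 ≤ (∑ k, ∑ l, u k * conj (u l) * hermi (F k l) w w).re) :
    0 ≤ (∑ k, ∑ l, U l k * Matrix.trace (F k l * K)).re := by
  obtain ⟨S', hS'⟩ := fac hU
  obtain ⟨S, hS⟩ := fac hK
  have h1 : ∀ k l, Matrix.trace (F k l * K) = ∑ b, hermi (F k l) (S b) (S b) := by
    intro k l
    have h2 : Matrix.trace (F k l * K) = Matrix.trace (S * F k l * Sᴴ) := by
      rw [hS, ← Matrix.mul_assoc, Matrix.trace_mul_comm, ← Matrix.mul_assoc]
    rw [h2, Matrix.trace]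
    refine Finset.sum_congr rfl fun b _ => ?_
    rw [Matrix.diag_apply, Matrix.mul_apply]
    unfold hermi
    rw [Finset.sum_comm]
    refine Finset.sum_congr rfl fun j _ => ?_
    rw [Matrix.mul_apply, Finset.sum_mul]
    refine Finset.sum_congr rfl fun i _ => ?_
    rw [Matrix.conjTranspose_apply]
    change S b i * F k l i j * conj (S b j) = F k l i j * S b i * conj (S b j)
    ring
  have h2 : ∑ k, ∑ l, U l k * Matrix.trace (F k l * K) =
      ∑ a, ∑ b, ∑ k, ∑ l, S' a k * conj (S' a l) * hermi (F k l) (S b) (S b) := by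
    rw [hS', sum_split]
    refine Finset.sum_congr rfl fun a _ => ?_
    calc ∑ k, ∑ l, S' a k * (conj (S' a l) * Matrix.trace (F k l * K))
        = ∑ k, ∑ l, ∑ b, S' a k * conj (S' a l) * hermi (F k l) (S b) (S b) := by
          refine Finset.sum_congr rfl fun k _ => Finset.sum_congr rfl fun l _ => ?_
          rw [h1, Finset.mul_sum, Finset.mul_sum]
          exact Finset.sum_congr rfl fun b _ => by ring
      _ = ∑ k, ∑ b, ∑ l, S' a k * conj (S' a l) * hermi (F k l) (S b) (S b) :=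
          Finset.sum_congr rfl fun k _ => Finset.sum_comm
      _ = _ := Finset.sum_comm
  rw [h2, Complex.re_sum]
  refine Finset.sum_nonneg fun a _ => ?_
  rw [Complex.re_sum]
  exact Finset.sum_nonneg fun b _ => hF (S' a) (S b)

/-- Cauchy–Schwarz for an entry of `τᴴ K σ`. -/
theorem cs_entry {n m : ℕ} {K : Matrix (Fin n) (Fin n) ℂ} (hK : K.PosSemidef)
    (τ σ : Matrix (Fin n) (Fin m) ℂ) (b c : Fin m) :
    ‖(τᴴ * K * σ) b c‖ ^ 2 ≤
      (Matrix.trace (τᴴ * K * τ)).re * (Matrix.trace (σᴴ * K * σ)).re := by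
  obtain ⟨S, hS⟩ := fac hK
  have e1 : ∀ V U : Matrix (Fin n) (Fin m) ℂ, Vᴴ * K * U = (S * V)ᴴ * (S * U) := by
    intro V U
    rw [hS, Matrix.conjTranspose_mul]
    simp only [Matrix.mul_assoc]
  have e2 : ∀ V : Matrix (Fin n) (Fin m) ℂ, (Matrix.trace (Vᴴ * K * V)).re = frq (S * V) := by
    intro V
    rw [e1, Matrix.trace_mul_comm, ← frq_eq, Complex.ofReal_re]
  rw [e2, e2, e1, Matrix.mul_apply]
  have h1 : ‖∑ i, (S * τ)ᴴ b i * (S * σ) i c‖ ≤ ∑ i, ‖(S * τ) i b‖ * ‖(S * σ) i c‖ := by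
    refine (norm_sum_le _ _).trans (le_of_eq ?_)
    refine Finset.sum_congr rfl fun i _ => ?_
    rw [norm_mul, Matrix.conjTranspose_apply, norm_star]
  have h2 : ∀ (V : Matrix (Fin n) (Fin m) ℂ) (d : Fin m), ∑ i, ‖V i d‖ ^ 2 ≤ frq V := by
    intro V d
    unfold frq
    refine Finset.sum_le_sum fun i _ => ?_
    exact Finset.single_le_sum (f := fun j => ‖V i j‖ ^ 2) (fun _ _ => sq_nonneg _)
      (Finset.mem_univ d)
  calc ‖∑ i, (S * τ)ᴴ b i * (S * σ) i c‖ ^ 2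
      ≤ (∑ i, ‖(S * τ) i b‖ * ‖(S * σ) i c‖) ^ 2 :=
        pow_le_pow_left₀ (norm_nonneg _) h1 2
    _ ≤ (∑ i, ‖(S * τ) i b‖ ^ 2) * ∑ i, ‖(S * σ) i c‖ ^ 2 :=
        Finset.sum_mul_sq_le_sq_mul_sq _ _ _
    _ ≤ _ := mul_le_mul (h2 _ _) (h2 _ _) (Finset.sum_nonneg fun _ _ => sq_nonneg _)
        (frq_nonneg _)

/-- `tr (σᴴ K σ) ≤ tr (h⁻¹) tr (σ h σᴴ K)`. -/
theorem tr_h {n m : ℕ} {K : Matrix (Fin n) (Fin n) ℂ} {h : Matrix (Fin m) (Fin m) ℂ}
    (hK : K.PosSemidef) (hh : h.PosDef) (σ : Matrix (Fin n) (Fin m) ℂ) :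
    (Matrix.trace (σᴴ * K * σ)).re ≤
      (Matrix.trace h⁻¹).re * (Matrix.trace (σ * h * σᴴ * K)).re := by
  have h1 := tr_dom hh (Matrix.PosSemidef.one (n := Fin m) (R := ℂ))
  have h2 : (σᴴ * K * σ).PosSemidef := hK.conjTranspose_mul_mul_same σ
  have h3 := trace_nonneg h1 h2
  rw [Matrix.sub_mul, Matrix.trace_sub, Matrix.one_mul, Matrix.one_mul, Matrix.smul_mul,
    Matrix.trace_smul, smul_eq_mul, Complex.sub_re, Complex.re_ofReal_mul] at h3
  have h4 : Matrix.trace (h * (σᴴ * K * σ)) = Matrix.trace (σ * h * σᴴ * K) := by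
    have e : h * (σᴴ * K * σ) = (h * σᴴ * K) * σ := by simp only [Matrix.mul_assoc]
    rw [e, Matrix.trace_mul_comm]
    simp only [Matrix.mul_assoc]
  rw [h4] at h3
  linarith

/-- `∑ M_kk ≤ tr H tr (Q H⁻¹) ∑ K l k M k l` for a form `M` which pairs nonnegatively with
positive semidefinite matrices. -/
theorem diag_le {n : ℕ} {Q H : Matrix (Fin n) (Fin n) ℂ} (hQ : Q.PosDef) (hH : H.PosDef)
    (M : Fin n → Fin n → ℂ)
    (hM : ∀ U : Matrix (Fin n) (Fin n) ℂ, U.PosSemidef → 0 ≤ (∑ k, ∑ l, U l k * M k l).re) :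
    (∑ k, M k k).re ≤ (Matrix.trace H).re * (Matrix.trace (Q * H⁻¹)).re *
      (∑ k, ∑ l, Q⁻¹ l k * M k l).re := by
  have hH0 : 0 ≤ (Matrix.trace H).re := (Complex.nonneg_iff.1 hH.posSemidef.trace_nonneg).1
  have hu : IsUnit H.det := isUnit_iff_ne_zero.2 hH.det_pos.ne'
  have h1 := hM _ (Pool.Agent.Helper94.GS.tr_inv hQ hH)
  have h2 := hM _ (tr_dom hH.inv (Matrix.PosSemidef.one (n := Fin n) (R := ℂ)))
  have e : ∀ (c : ℝ) (A B : Matrix (Fin n) (Fin n) ℂ), (∑ k, ∑ l, ((c : ℂ) • A - B) l k *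
      M k l).re = c * (∑ k, ∑ l, A l k * M k l).re - (∑ k, ∑ l, B l k * M k l).re := by
    intro c A B
    rw [← Complex.re_ofReal_mul, ← Complex.sub_re, Finset.mul_sum, ← Finset.sum_sub_distrib]
    congr 1
    refine Finset.sum_congr rfl fun k _ => ?_
    rw [Finset.mul_sum, ← Finset.sum_sub_distrib]
    refine Finset.sum_congr rfl fun l _ => ?_
    rw [Matrix.sub_apply, Matrix.smul_apply, smul_eq_mul]
    ring
  rw [e] at h1 h2
  rw [Matrix.one_mul, Matrix.nonsing_inv_nonsing_inv _ hu] at h2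
  have h3 : ∑ k, ∑ l, (1 : Matrix (Fin n) (Fin n) ℂ) l k * M k l = ∑ k, M k k := by
    refine Finset.sum_congr rfl fun k _ => ?_
    simp [Matrix.one_apply]
  rw [h3] at h2
  have h4 := mul_le_mul_of_nonneg_left (sub_nonneg.1 h1) hH0
  calc _ ≤ _ := sub_nonneg.1 h2
    _ ≤ _ := h4
    _ = _ := by ring

/-! ## The bounds at a point -/

theorem entry_mul {m : ℕ} {h Y : Matrix (Fin m) (Fin m) ℂ} {B y : ℝ} (hB : ∀ a b, ‖h a b‖ ≤ B)
    (hY : ∀ b c, ‖Y b c‖ ≤ y) (a c : Fin m) : ‖(h * Y) a c‖ ≤ m * B * y := by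
  rw [Matrix.mul_apply]
  refine (norm_sum_le _ _).trans ?_
  have h1 : ∀ b ∈ (Finset.univ : Finset (Fin m)), ‖h a b * Y b c‖ ≤ B * y := by
    intro b _
    rw [norm_mul]
    exact mul_le_mul (hB a b) (hY b c) (norm_nonneg _) ((norm_nonneg _).trans (hB a b))
  refine (Finset.sum_le_card_nsmul _ _ _ h1).trans (le_of_eq ?_)
  rw [Finset.card_univ, Fintype.card_fin, nsmul_eq_mul]
  ring

theorem pt_entry {n m : ℕ} {K : Matrix (Fin n) (Fin n) ℂ} {h : Matrix (Fin m) (Fin m) ℂ}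
    (hK : K.PosSemidef) (hh : h.PosDef) (σ : Matrix (Fin n) (Fin m) ℂ) {B : ℝ}
    (hB : ∀ a b, ‖h a b‖ ≤ B) (hB' : (Matrix.trace h⁻¹).re ≤ B) (a c : Fin m) :
    ‖(h * (σᴴ * K * σ)) a c‖ ≤ m * B * (B * (Matrix.trace (σ * h * σᴴ * K)).re) := by
  have h0 : 0 ≤ (Matrix.trace (σ * h * σᴴ * K)).re :=
    trace_nonneg (hh.posSemidef.mul_mul_conjTranspose_same σ) hK
  have h1 : 0 ≤ (Matrix.trace (σᴴ * K * σ)).re :=
    (Complex.nonneg_iff.1 (hK.conjTranspose_mul_mul_same σ).trace_nonneg).1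
  refine entry_mul hB (fun b c => ?_) a c
  have h2 : ‖(σᴴ * K * σ) b c‖ ≤ (Matrix.trace (σᴴ * K * σ)).re := by
    refine le_of_sq_le_sq ?_ h1
    rw [pow_two (Matrix.trace (σᴴ * K * σ)).re]
    exact cs_entry hK σ σ b c
  exact h2.trans ((tr_h hK hh σ).trans (mul_le_mul_of_nonneg_right hB' h0))

theorem pt_deriv {n m : ℕ} {K : Matrix (Fin n) (Fin n) ℂ} {h : Matrix (Fin m) (Fin m) ℂ}
    (hK : K.PosSemidef) (hh : h.PosDef) (τ σ : Matrix (Fin n) (Fin m) ℂ) {B : ℝ}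
    (hB0 : 0 ≤ B)
    (hB : ∀ a b, ‖h a b‖ ≤ B) (hB' : (Matrix.trace h⁻¹).re ≤ B) (a c : Fin m) :
    ‖(h * (τᴴ * K * σ)) a c‖ ^ 2 ≤ (m * B) ^ 2 * (B ^ 2 *
      ((Matrix.trace (τ * h * τᴴ * K)).re * (Matrix.trace (σ * h * σᴴ * K)).re)) := by
  have h0 : ∀ ρ : Matrix (Fin n) (Fin m) ℂ, 0 ≤ (Matrix.trace (ρ * h * ρᴴ * K)).re := fun ρ =>
    trace_nonneg (hh.posSemidef.mul_mul_conjTranspose_same ρ) hK
  have h1 : ∀ ρ : Matrix (Fin n) (Fin m) ℂ, 0 ≤ (Matrix.trace (ρᴴ * K * ρ)).re := fun ρ =>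
    (Complex.nonneg_iff.1 (hK.conjTranspose_mul_mul_same ρ).trace_nonneg).1
  set z : ℝ := B ^ 2 *
      ((Matrix.trace (τ * h * τᴴ * K)).re * (Matrix.trace (σ * h * σᴴ * K)).re) with hz
  have hz0 : 0 ≤ z := mul_nonneg (sq_nonneg _) (mul_nonneg (h0 _) (h0 _))
  have h3 : ∀ b c, ‖(τᴴ * K * σ) b c‖ ≤ √z := by
    intro b c
    refine Real.le_sqrt_of_sq_le ((cs_entry hK τ σ b c).trans ?_)
    have h4 : ∀ ρ : Matrix (Fin n) (Fin m) ℂ, (Matrix.trace (ρᴴ * K * ρ)).re ≤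
        B * (Matrix.trace (ρ * h * ρᴴ * K)).re := fun ρ =>
      (tr_h hK hh ρ).trans (mul_le_mul_of_nonneg_right hB' (h0 ρ))
    refine (mul_le_mul (h4 τ) (h4 σ) (h1 σ) (mul_nonneg hB0 (h0 τ))).trans (le_of_eq ?_)
    rw [hz]
    ring
  have h5 := entry_mul hB h3 a c
  calc ‖(h * (τᴴ * K * σ)) a c‖ ^ 2 ≤ (m * B * √z) ^ 2 := pow_le_pow_left₀ (norm_nonneg _) h5 2
    _ = (m * B) ^ 2 * z := by rw [mul_pow, Real.sq_sqrt hz0]

/-! ## SDB -/

section fields

variable {n m : ℕ} {T : Set (Cn n)} {G : Type u} [Group G] {R : G → Cn n → Cn n → Prop}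
  {σ : Cn n → Matrix (Fin n) (Fin m) ℂ} {h : Cn n → Matrix (Fin m) (Fin m) ℂ}
  {Q H : Cn n → Matrix (Fin n) (Fin n) ℂ} {x : Cn n}

theorem sm_core (hS : SD T R σ h) (hQ : KEt T R Q) :
    SmR (fun y => h y * (σ y)ᴴ * (Q y)⁻¹ * σ y) T :=
  SmR.mul (sm_B hQ.et.isOpen hS hQ) (sm_sigma hQ.et.isOpen hS)

theorem sm_XS (hS : SD T R σ h) (hQ : KEt T R Q) (ε : ℝ) (a c : Fin m) :
    ContDiffOn ℝ ∞ (fun x => XS ε σ h Q x a c) T :=
  contDiffOn_const.mul (sm_core hS hQ a c)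

/-- `cdb l X = ε h τ_lᴴ K σ`. -/
theorem cdb_XS (hS : SD T R σ h) (hQ : KEt T R Q) (hx : x ∈ T) (ε : ℝ) (l : Fin n)
    (a c : Fin m) : cdb l (fun y => XS ε σ h Q y a c) x =
      (ε : ℂ) * (h x * ((tauS σ h Q l x)ᴴ * (Q x)⁻¹ * σ x)) a c := by
  have hT := hQ.et.isOpen
  have hd : DifferentiableAt ℝ (fun y => (h y * (σ y)ᴴ * (Q y)⁻¹ * σ y) a c) x :=
    ((sm_core hS hQ a c).contDiffAt (hT.mem_nhds hx)).differentiableAt (by simp)
  have e1 : cdb l (fun y => XS ε σ h Q y a c) x =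
      (ε : ℂ) * cdb l (fun y => (h y * (σ y)ᴴ * (Q y)⁻¹ * σ y) a c) x :=
    Pool.Agent.Helper62.HS.cdb_const_mul l (ε : ℂ) _ x hd
  have e2 := congrFun (congrFun (cdbR_mul hT hx (sm_B hT hS hQ) (sm_sigma hT hS) l) a) c
  have e3 : cdb l (fun y => (h y * (σ y)ᴴ * (Q y)⁻¹ * σ y) a c) x =
      (h x * ((tauS σ h Q l x)ᴴ * (Q x)⁻¹ * σ x)) a c := by
    refine (show _ = _ from e2).trans ?_
    rw [cdbR_B hS hQ hx l, cdbR_holo hT hx hS.holo l, Matrix.mul_zero, add_zero]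
    simp only [Matrix.mul_assoc]
  rw [e1, e3]

theorem tau_diag (hS : SD T R σ h) (hQ : KEt T R Q) (hH : KEt T R H) (hx : x ∈ T)
    (l : Fin n) : (Matrix.trace (tauS σ h Q l x * h x * (tauS σ h Q l x)ᴴ * (Q x)⁻¹)).re ≤
      (Matrix.trace (H x)).re * (Matrix.trace (Q x * (H x)⁻¹)).re * AAs σ h Q x := by
  have hK := (hQ.posDef x hx).inv.posSemidef
  have hh := (hS.posDef x hx).posSemidef
  have h1 := diag_le (hQ.posDef x hx) (hH.posDef x hx)
    (fun k l => Matrix.trace (tauS σ h Q k x * h x * (tauS σ h Q l x)ᴴ * (Q x)⁻¹))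
    (fun U hU => grad_nonneg hU hK hh (fun k => tauS σ h Q k x))
  refine le_trans ?_ h1
  rw [Complex.re_sum]
  exact Finset.single_le_sum (f := fun k =>
    (Matrix.trace (tauS σ h Q k x * h x * (tauS σ h Q k x)ᴴ * (Q x)⁻¹)).re)
    (fun k _ => trace_nonneg (hh.mul_mul_conjTranspose_same _) hK) (Finset.mem_univ l)

end fields

theorem bound_C {n m : ℕ} {T : Set (Cn n)} {G : Type u} {R : G → Cn n → Cn n → Prop}
    {σ : Cn n → Matrix (Fin n) (Fin m) ℂ} {h : Cn n → Matrix (Fin m) (Fin m) ℂ}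
    {H : Cn n → Matrix (Fin n) (Fin n) ℂ} [Group G] (hH : KEt T R H) (hS : SD T R σ h)
    {C : Set (Cn n)} (hC : C ⊆ T) (hCc : IsCompact C) :
    ∃ B : ℝ, 1 ≤ B ∧ ∀ x ∈ C, (∀ a b, ‖h x a b‖ ≤ B) ∧ (Matrix.trace (h x)⁻¹).re ≤ B ∧
      (Matrix.trace (H x)).re ≤ B := by
  have h1 : ∀ q : Fin m × Fin m, ∃ B : ℝ, ∀ x ∈ C, ‖h x q.1 q.2‖ ≤ B := fun q =>
    hCc.exists_bound_of_continuousOn ((hS.smooth q.1 q.2).continuousOn.mono hC)
  choose B1 hB1 using h1
  have hinv : SmM (fun x => (h x)⁻¹) T :=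
    SmM.inv (X := h) hS.smooth fun x hx => (hS.posDef x hx).det_pos.ne'
  obtain ⟨B2, hB2⟩ := hCc.exists_bound_of_continuousOn (hinv.trace.continuousOn.mono hC)
  have hHs : SmM H T := hH.smooth
  obtain ⟨B3, hB3⟩ := hCc.exists_bound_of_continuousOn (hHs.trace.continuousOn.mono hC)
  have hs : 0 ≤ ∑ q, |B1 q| := Finset.sum_nonneg fun q _ => abs_nonneg _
  refine ⟨1 + (∑ q, |B1 q|) + |B2| + |B3|, ?_, fun x hx => ⟨fun a b => ?_, ?_, ?_⟩⟩
  · linarith [abs_nonneg B2, abs_nonneg B3]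
  · have h2 := hB1 (a, b) x hx
    have h3 : |B1 (a, b)| ≤ ∑ q, |B1 q| :=
      Finset.single_le_sum (f := fun q => |B1 q|) (fun q _ => abs_nonneg _)
        (Finset.mem_univ (a, b))
    have h4 : ‖h x a b‖ ≤ |B1 (a, b)| := h2.trans (le_abs_self _)
    linarith [abs_nonneg B2, abs_nonneg B3]
  · have h2 := (Complex.re_le_norm _).trans (hB2 x hx)
    linarith [le_abs_self B2, abs_nonneg B3]
  · have h2 := (Complex.re_le_norm _).trans (hB3 x hx)
    linarith [le_abs_self B3, abs_nonneg B2]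

/-- SDB. -/
theorem sdb : S_SDB.{u} := by
  intro n m T G _ R H σ h hH hS
  refine ⟨fun ε Q hε hQ => ⟨sm_XS hS hQ ε, fun x hx => ?_⟩, fun C hC hCc => ?_⟩
  · have hKh : ((Q x)⁻¹).IsHermitian := (hQ.posDef x hx).inv.isHermitian
    have hhh : (h x).IsHermitian := (hS.posDef x hx).isHermitian
    have e1 : XS ε σ h Q x * h x = (ε : ℂ) • ((σ x * h x)ᴴ * (Q x)⁻¹ * (σ x * h x)) := by
      unfold XS
      rw [Matrix.smul_mul, Matrix.conjTranspose_mul, hhh.eq]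
      simp only [Matrix.mul_assoc]
    have hp : (XS ε σ h Q x * h x).PosSemidef := by
      rw [e1]
      exact ((hQ.posDef x hx).inv.posSemidef.conjTranspose_mul_mul_same _).smul
        (Complex.zero_le_real.2 hε.le)
    refine ⟨?_, hp, ?_⟩
    · have h1 := hp.isHermitian.eq
      rw [Matrix.conjTranspose_mul, hhh.eq] at h1
      exact h1.symm
    · rw [Complex.ofReal_mul, tS_real hS hQ hx]
      unfold XS gS
      rw [Matrix.trace_smul, smul_eq_mul, Matrix.trace_mul_comm]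
      simp only [Matrix.mul_assoc]
  · obtain ⟨B, hB1, hB⟩ := bound_C hH hS hC hCc
    have hB0 : 0 ≤ B := by linarith
    set mm : ℝ := (m : ℝ) + 1 with hmm
    have hm0 : (0 : ℝ) ≤ m := Nat.cast_nonneg m
    have hmm1 : 1 ≤ mm := by rw [hmm]; linarith
    refine ⟨mm ^ 2 * B ^ 5, by positivity, fun ε Q hε hQ x hx => ?_⟩
    have hxT := hC hx
    obtain ⟨b1, b2, b3⟩ := hB x hx
    have hK := (hQ.posDef x hxT).inv.posSemidef
    have hh := hS.posDef x hxT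
    have ht0 : 0 ≤ tS σ h Q x := trace_nonneg (hh.posSemidef.mul_mul_conjTranspose_same _) hK
    have hg0 : 0 ≤ (Matrix.trace (Q x * (H x)⁻¹)).re :=
      trace_nonneg (hQ.posDef x hxT).posSemidef (hH.posDef x hxT).inv.posSemidef
    have ha0 : 0 ≤ AAs σ h Q x := (aaps_rect hK hh.posSemidef (fun k => tauS σ h Q k x) (σ x)).1
    refine ⟨fun a c => ?_, fun l a c => ?_⟩
    · have e1 : XS ε σ h Q x a c = (ε : ℂ) * (h x * ((σ x)ᴴ * (Q x)⁻¹ * σ x)) a c := by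
        unfold XS
        rw [Matrix.smul_apply, smul_eq_mul]
        simp only [Matrix.mul_assoc]
      rw [e1, norm_mul, Complex.norm_real, Real.norm_of_nonneg hε.le]
      have h1 := mul_le_mul_of_nonneg_left (pt_entry hK hh (σ x) b1 b2 a c) hε.le
      refine h1.trans ?_
      have e2 : ε * (m * B * (B * (Matrix.trace (σ x * h x * (σ x)ᴴ * (Q x)⁻¹)).re)) =
          (m * B ^ 2) * (ε * tS σ h Q x) := by
        unfold tS gS
        ring
      rw [e2]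
      refine mul_le_mul_of_nonneg_right ?_ (mul_nonneg hε.le ht0)
      have h2 : (m : ℝ) ≤ mm ^ 2 := by nlinarith
      have h3 : B ^ 2 ≤ B ^ 5 := pow_le_pow_right₀ hB1 (by norm_num)
      exact mul_le_mul h2 h3 (by positivity) (by positivity)
    · rw [cdb_XS hS hQ hxT ε l a c, norm_mul, Complex.norm_real, Real.norm_of_nonneg hε.le,
        mul_pow]
      have h1 := mul_le_mul_of_nonneg_left
        (pt_deriv hK hh (tauS σ h Q l x) (σ x) hB0 b1 b2 a c) (sq_nonneg ε)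
      refine h1.trans ?_
      have h2 := tau_diag hS hQ hH hxT l
      have h2' : (Matrix.trace (tauS σ h Q l x * h x * (tauS σ h Q l x)ᴴ * (Q x)⁻¹)).re ≤
          B * (Matrix.trace (Q x * (H x)⁻¹)).re * AAs σ h Q x :=
        h2.trans (mul_le_mul_of_nonneg_right (mul_le_mul_of_nonneg_right b3 hg0) ha0)
      have h3 := mul_le_mul_of_nonneg_right h2' ht0
      have h4 : 0 ≤ ε ^ 2 * ((m * B) ^ 2 * B ^ 2) := by positivity
      have h5 := mul_le_mul_of_nonneg_left h3 h4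
      have e2 : ε ^ 2 * ((m * B) ^ 2 * (B ^ 2 *
          ((Matrix.trace (tauS σ h Q l x * h x * (tauS σ h Q l x)ᴴ * (Q x)⁻¹)).re *
            (Matrix.trace (σ x * h x * (σ x)ᴴ * (Q x)⁻¹)).re))) =
          ε ^ 2 * ((m * B) ^ 2 * B ^ 2) *
          ((Matrix.trace (tauS σ h Q l x * h x * (tauS σ h Q l x)ᴴ * (Q x)⁻¹)).re *
            tS σ h Q x) := by
        unfold tS gS
        ring
      rw [e2]
      refine h5.trans ?_
      have e3 : ε ^ 2 * ((m * B) ^ 2 * B ^ 2) *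
          (B * (Matrix.trace (Q x * (H x)⁻¹)).re * AAs σ h Q x * tS σ h Q x) =
          ((m : ℝ) ^ 2 * B ^ 5) * ((Matrix.trace (Q x * (H x)⁻¹)).re * (ε * AAs σ h Q x) *
            (ε * tS σ h Q x)) := by ring
      have e4 : mm ^ 2 * B ^ 5 * (Matrix.trace (Q x * (H x)⁻¹)).re * (ε * AAs σ h Q x) *
          (ε * tS σ h Q x) = (mm ^ 2 * B ^ 5) * ((Matrix.trace (Q x * (H x)⁻¹)).re *
            (ε * AAs σ h Q x) * (ε * tS σ h Q x)) := by ring
      rw [e3, e4]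
      refine mul_le_mul_of_nonneg_right ?_ (by positivity)
      refine mul_le_mul_of_nonneg_right ?_ (by positivity)
      exact pow_le_pow_left₀ hm0 (by rw [hmm]; linarith) 2

/-! ## SDK -/

/-- A Hermitian form which pairs nonnegatively with positive semidefinite matrices has entries
bounded by its trace. -/
theorem entry_le_diag {n : ℕ} (M : Fin n → Fin n → ℂ) (hM' : ∀ k l, conj (M k l) = M l k)
    (hM : ∀ U : Matrix (Fin n) (Fin n) ℂ, U.PosSemidef → 0 ≤ (∑ k, ∑ l, U l k * M k l).re)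
    (k l : Fin n) : ‖M k l‖ ≤ (∑ k, M k k).re := by
  set N : Matrix (Fin n) (Fin n) ℂ := Matrix.of fun l k => M k l with hN
  have hNh : N.IsHermitian := by
    ext i j
    rw [Matrix.conjTranspose_apply]
    exact hM' i j
  have hNp : N.PosSemidef := by
    refine Matrix.PosSemidef.of_dotProduct_mulVec_nonneg hNh fun v => ?_
    have e : star v ⬝ᵥ N *ᵥ v = ∑ k, ∑ l, (Matrix.vecMulVec (star v) v) l k * M k l := by
      rw [dotProduct, Finset.sum_comm]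
      refine Finset.sum_congr rfl fun l _ => ?_
      rw [Matrix.mulVec, dotProduct, Finset.mul_sum]
      refine Finset.sum_congr rfl fun k _ => ?_
      rw [Matrix.vecMulVec_apply, hN, Matrix.of_apply]
      ring
    have h1 : 0 ≤ (star v ⬝ᵥ N *ᵥ v).re := by
      rw [e]
      exact hM _ (by simpa using Matrix.posSemidef_vecMulVec_star_self v)
    rw [Complex.nonneg_iff]
    exact ⟨h1, (hNh.im_star_dotProduct_mulVec_self v).symm⟩
  have h1 := cs_entry hNp (1 : Matrix (Fin n) (Fin n) ℂ) 1 l k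
  rw [Matrix.conjTranspose_one, Matrix.one_mul, Matrix.mul_one] at h1
  have h2 : (Matrix.trace N).re = (∑ k, M k k).re := by
    rw [Matrix.trace]
    rfl
  rw [h2] at h1
  have h3 : 0 ≤ (∑ k, M k k).re := by
    rw [← h2]
    exact (Complex.nonneg_iff.1 hNp.trace_nonneg).1
  refine le_of_sq_le_sq ?_ h3
  rw [pow_two (∑ k, M k k).re]
  exact h1

/-- SDK. -/
theorem sdk : S_SDK.{u} := by
  intro n m T G _ R H σ h hH hS C hC hCc
  have hT := hH.et.isOpen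
  obtain ⟨B, hB1, hB⟩ := bound_C hH hS hC hCc
  refine ⟨B, by linarith, fun ε Q hε hQ x hx k l => ?_⟩
  have hxT := hC hx
  have hK := (hQ.posDef x hxT).inv.posSemidef
  set M : Fin n → Fin n → ℂ := fun k l =>
    Matrix.trace (σ x * (RE h k l x * h x) * (σ x)ᴴ * (Q x)⁻¹) with hM
  have hMp : ∀ U : Matrix (Fin n) (Fin n) ℂ, U.PosSemidef →
      0 ≤ (∑ k, ∑ l, U l k * M k l).re := fun U hU =>
    curv_nonneg hU hK (fun k l => σ x * (RE h k l x * h x) * (σ x)ᴴ) (hS.neg x hxT)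
  have hMh : ∀ k l, conj (M k l) = M l k := by
    intro k l
    have h1 : conj (M k l) = Matrix.trace ((σ x * (RE h k l x * h x) * (σ x)ᴴ * (Q x)⁻¹)ᴴ) := by
      rw [Matrix.trace_conjTranspose]
      rfl
    rw [h1]
    have h2 := RE_herm hT hS.smooth hS.posDef hxT k l
    have h3 := (hQ.posDef x hxT).inv.isHermitian.eq
    have h4 : (σ x * (RE h k l x * h x) * (σ x)ᴴ * (Q x)⁻¹)ᴴ =
        (Q x)⁻¹ * (σ x * (RE h l k x * h x) * (σ x)ᴴ) := by
      rw [Matrix.conjTranspose_mul, Matrix.conjTranspose_mul, Matrix.conjTranspose_mul,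
        Matrix.conjTranspose_conjTranspose, h2, h3]
      simp only [Matrix.mul_assoc]
    rw [h4, Matrix.trace_mul_comm]
  have h1 := entry_le_diag M hMh hMp k l
  have h2 := diag_le (hQ.posDef x hxT) (hH.posDef x hxT) M hMp
  have e1 : Matrix.trace (RE h k l x * XS ε σ h Q x) = (ε : ℂ) * M k l := by
    rw [hM]
    unfold XS
    rw [Matrix.mul_smul, Matrix.trace_smul, smul_eq_mul]
    congr 1
    have e2 : RE h k l x * (h x * (σ x)ᴴ * (Q x)⁻¹ * σ x) =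
        (RE h k l x * h x * (σ x)ᴴ * (Q x)⁻¹) * σ x := by simp only [Matrix.mul_assoc]
    rw [e2, Matrix.trace_mul_comm]
    simp only [Matrix.mul_assoc]
  have hN : NKs σ h Q x = (∑ k, ∑ l, (Q x)⁻¹ l k * M k l).re := rfl
  have hN0 : 0 ≤ NKs σ h Q x := by rw [hN]; exact hMp _ hK
  have hg0 : 0 ≤ (Matrix.trace (Q x * (H x)⁻¹)).re :=
    trace_nonneg (hQ.posDef x hxT).posSemidef (hH.posDef x hxT).inv.posSemidef
  rw [e1, norm_mul, Complex.norm_real, Real.norm_of_nonneg hε.le]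
  calc ε * ‖M k l‖ ≤ ε * ((Matrix.trace (H x)).re * (Matrix.trace (Q x * (H x)⁻¹)).re *
        NKs σ h Q x) := mul_le_mul_of_nonneg_left (h1.trans h2) hε.le
    _ ≤ ε * (B * (Matrix.trace (Q x * (H x)⁻¹)).re * NKs σ h Q x) := by
        refine mul_le_mul_of_nonneg_left ?_ hε.le
        exact mul_le_mul_of_nonneg_right (mul_le_mul_of_nonneg_right (hB x hx).2.2 hg0) hN0
    _ = _ := by ring

end Pool.Agent.Helper57.HX
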