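import Pool.Agent.Helper57.HX.Hdm
import Pool.Agent.Helper57.RBC.AsmL
import Pool.Agent.Helper15.GS.AsmM

/-! # HB: assembly of HDM -/

namespace Pool.Agent.Helper57.HX.Asm

open Pool.Agent.Helper15.HS.Asm Pool.Agent.Helper15.GS.Asm Pool.Agent.Helper10.SP.Asm

universe u v

theorem t_HDM : Pool.Agent.Helper45.HB.S_HDM.{u, v} :=
  Pool.Agent.Helper57.HX.hdm t_PARH t_KETH t_DETI t_LMF t_WIRT

end Pool.Agent.Helper57.HX.Asm
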