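import Pool.Agent.Helper57.HX.GoalsL
import Pool.Agent.Helper57.HX.Ex
import Pool.Agent.Helper57.RBC.Conc

/-!
# HVD, HVC
-/

open Complex Metric Set Filter Topology MeasureTheory
open scoped ContDiff ComplexConjugate ComplexOrder Manifold Matrix

namespace Pool.Agent.Helper57.HX

open Pool.Agent.Helper95.Lin Pool.Agent.Helper16.Abund Pool.Agent.Helper92.Orb
  Pool.Agent.Helper10.SP Pool.Agent.Helper95.RK Pool.Agent.Helper57.HS
  Pool.Agent.Helper15.HS Pool.Agent.Helper15.GS Pool.Agent.Helper57.RBC Pool.Agent.Helper82.HB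
open Pool.Agent.Helper10.RBC (dn S_RVZ)
open Pool.Agent.Helper16.HS.AYTP (her_ket chf_ket)

universe u

theorem hvd (hWIRT : S_WIRT) (hDETI : S_DETI.{u}) (hMAXF : Pool.Agent.Helper95.HS.S_MAXF.{u})
    (hTRI : Pool.Agent.Helper95.HS.S_TRI.{u}) (hKETP : Pool.Agent.Helper95.HS.S_KETP.{u})
    (hSCL : S_SCL.{u}) : S_HVD.{u} := by
  intro n m T G _ R H' σ h hH' hSD κ hκ S ε Q hε hS hQ
  have hT := hH'.et.isOpen
  have hQk := hQ.ket
  have hD := hDETI T R Q hQk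
  have hdc : ContinuousOn (fun x => (Q x).det.re) T := hD.2.1.continuousOn
  have hd0 : ∀ x ∈ T, 0 ≤ (Q x).det.re := fun x hx => (hD.1 x hx).2.1.le
  obtain ⟨hgs, htI, hAc, hNc, hinv, hpt⟩ := hSCL T R σ h hSD Q (fun x => (ε : ℂ) • H' x) hQk
    hQ.eq
  have hvI : InvF T R (fun x => S - ε * tS σ h Q x) := by
    refine ⟨contDiffOn_const.sub (contDiffOn_const.mul htI.1), fun γ x y hxy => ?_⟩
    have := htI.2 γ x y hxy
    simp only at this ⊢
    rw [this]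
  have hcl : ∀ x ∈ T, (trL Q (tS σ h Q) x).re = - tS σ h Q x +
      ε * (Matrix.trace (H' x * (Q x)⁻¹ * gS σ h x * (Q x)⁻¹)).re + AAs σ h Q x +
      NKs σ h Q x := by
    intro x hx
    rw [(hpt x hx).2.2.2.2.2.2.1, Matrix.smul_mul, Matrix.smul_mul, Matrix.smul_mul,
      Matrix.trace_smul, smul_eq_mul, Complex.re_ofReal_mul]
  -- the arithmetic-geometric inequality
  have hag : ∀ x ∈ T, 2 * (ε * tS σ h Q x) ≤
      S + ε * (ε * (Matrix.trace (H' x * (Q x)⁻¹ * gS σ h x * (Q x)⁻¹)).re) := by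
    intro x hx
    obtain ⟨ht0, hb0, ha0, hcs⟩ := cs_tr (hH'.posDef x hx) (hpt x hx).1 (hQk.posDef x hx)
    have hsb := hS x hx
    unfold tS
    set t := (Matrix.trace (gS σ h x * (Q x)⁻¹)).re
    set a := (Matrix.trace (H' x * (Q x)⁻¹ * gS σ h x * (Q x)⁻¹)).re
    set b := (Matrix.trace (gS σ h x * (H' x)⁻¹)).re
    have hS0 : 0 ≤ S := hb0.trans hsb
    have hα : 0 ≤ ε * (ε * a) := by positivity
    have h1 : (ε * t) ^ 2 ≤ (ε * (ε * a)) * S := by
      calc (ε * t) ^ 2 = ε * ε * t ^ 2 := by ring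
        _ ≤ ε * ε * (a * b) := mul_le_mul_of_nonneg_left hcs (by positivity)
        _ ≤ ε * ε * (a * S) := mul_le_mul_of_nonneg_left
            (mul_le_mul_of_nonneg_left hsb ha0) (by positivity)
        _ = (ε * (ε * a)) * S := by ring
    have h2 : (2 * (ε * t)) ^ 2 ≤ (S + ε * (ε * a)) ^ 2 := by
      nlinarith [sq_nonneg (S - ε * (ε * a))]
    exact (pow_le_pow_iff_left₀ (by positivity) (by positivity) (by norm_num)).1 h2
  -- the sharp bound
  have hv0 : ∀ x ∈ T, 0 ≤ S - ε * tS σ h Q x := by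
    obtain ⟨x₀, hx₀, hmax, hpsd⟩ := hMAXF T R hH'.et _ htI
    have hQp := hQk.posDef x₀ hx₀
    have hle : (trL Q (tS σ h Q) x₀).re ≤ 0 := by
      have h1 := tr_mul_nonneg hQp.posSemidef.inv hpsd
      rw [Matrix.mul_neg, Matrix.trace_neg, Complex.neg_re] at h1
      unfold trL
      linarith
    have h1 := hcl x₀ hx₀
    have h2 := (hpt x₀ hx₀).2.2.1
    have h3 := (hpt x₀ hx₀).2.2.2.1
    have h4 := (hpt x₀ hx₀).2.1
    obtain ⟨ht0, hb0, ha0, hcs⟩ := cs_tr (hH'.posDef x₀ hx₀) (hpt x₀ hx₀).1 hQp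
    have hsb := hS x₀ hx₀
    have hcs' : (tS σ h Q x₀) ^ 2 ≤
        (Matrix.trace (H' x₀ * (Q x₀)⁻¹ * gS σ h x₀ * (Q x₀)⁻¹)).re *
          (Matrix.trace (gS σ h x₀ * (H' x₀)⁻¹)).re := hcs
    set a := (Matrix.trace (H' x₀ * (Q x₀)⁻¹ * gS σ h x₀ * (Q x₀)⁻¹)).re
    set b := (Matrix.trace (gS σ h x₀ * (H' x₀)⁻¹)).re
    set t := tS σ h Q x₀ with ht
    have h5 : ε * a ≤ t := by linarith
    have h6 : ε * t ≤ S := by
      rcases h4.eq_or_lt with h0 | h0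
      · rw [← h0, mul_zero]
        linarith
      · have h7 : ε * t * t ≤ S * t := by
          calc ε * t * t = ε * t ^ 2 := by ring
            _ ≤ ε * (a * b) := mul_le_mul_of_nonneg_left hcs' hε.le
            _ = (ε * a) * b := by ring
            _ ≤ t * b := mul_le_mul_of_nonneg_right h5 hb0
            _ ≤ t * S := mul_le_mul_of_nonneg_left hsb h0.le
            _ = S * t := by ring
        exact le_of_mul_le_mul_right h7 h0
    intro x hx
    have h7 := mul_le_mul_of_nonneg_left (hmax x hx) hε.le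
    linarith
  have htrc : ContinuousOn (fun x => (trL Q (tS σ h Q) x).re) T :=
    ((hKETP T R hH'.et).2.2 Q _ hQk htI).1.1.continuousOn
  have htr0 := (hTRI T R Q hQk).2 κ hκ _ htI
  have hcc : ContinuousOn (fun x => ε * (AAs σ h Q x + NKs σ h Q x)) T :=
    continuousOn_const.mul (hAc.add hNc)
  refine ⟨hvI, hv0, ?_, hcc, ?_, ?_, ?_⟩
  · intro x hx
    rw [trL_sub_mul hWIRT hT htI.1 S ε Q hx, hcl x hx]
    have h1 := (hpt x hx).2.2.1
    have h2 := (hpt x hx).2.2.2.1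
    have h3 := hag x hx
    nlinarith [mul_nonneg hε.le h1, mul_nonneg hε.le h2]
  · intro x hx
    exact ⟨mul_nonneg hε.le (hpt x hx).2.2.1, mul_nonneg hε.le (hpt x hx).2.2.2.1⟩
  · intro γ x y hxy
    rw [hinv γ x y hxy]
  · refine avE_le hT hκ.test hκ.nonneg hdc hd0 hcc
      hvI.1.continuousOn htrc htr0 (c := ε) fun x hx => ?_
    have h0 := hcl x hx
    have h1 := (hpt x hx).2.2.1
    have h2 := (hpt x hx).2.2.2.1
    have h3 := hag x hx
    rw [h0]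
    nlinarith [mul_nonneg hε.le h1, mul_nonneg hε.le h2]

theorem seq_tkes' {n : ℕ} {T : Set (Cn n)} {G : Type u} [Group G]
    {R : G → Cn n → Cn n → Prop} {H h : Cn n → Matrix (Fin n) (Fin n) ℂ} {s : ℝ}
    {S N : ℕ → ℝ} {φ : ℕ → Cn n → ℝ} {H' : ℕ → Cn n → Matrix (Fin n) (Fin n) ℂ} {ε : ℕ → ℝ}
    {Q : ℕ → Cn n → Matrix (Fin n) (Fin n) ℂ} (hS : SeqR T R H h s S N φ H' ε Q) (j : ℕ) :
    TkeS T R H (ε j) (H' j) (Q j) :=
  ⟨(hS.fam j).ket, hS.eps j, hS.tke j, hS.epsH j⟩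

theorem hvc (hMAXF : Pool.Agent.Helper95.HS.S_MAXF.{u}) (hRWT : S_RWT.{u}) (hHVD : S_HVD.{u})
    (hRLG : S_RLG.{u}) (hRVZ : S_RVZ.{u}) (hSCL : S_SCL.{u}) : S_HVC.{u} := by
  intro n m hn T G _ R H σ h hH hSD κ hκ s S N φ H' ε Q hS
  have hT := hH.et.isOpen
  obtain ⟨K, hK, hW1, hW2⟩ := hRWT hn T R H hH κ hκ
  have hW := fun j => hW1 (ε j) (H' j) (Q j) (seq_tkes' hS j)
  have hV := fun j => hHVD T R (H' j) σ h (hS.fam j).ket hSD κ hκ (S j) (ε j) (Q j)
    (hS.eps j) (hS.sup j) (hS.tke j)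
  set v : ℕ → Cn n → ℝ := fun j x => S j - ε j * tS σ h (Q j) x with hv
  have hvI : ∀ j, InvF T R (v j) := fun j => (hV j).1
  have hv0 : ∀ j, ∀ x ∈ T, 0 ≤ v j x := fun j => (hV j).2.1
  have hvl : ∀ j, ∀ x ∈ T, (trL (Q j) (v j) x).re ≤ v j x := fun j => (hV j).2.2.1
  have hvM : ∀ j, ∀ x ∈ T, v j x ≤ s + 1 := by
    intro j x hx
    have h1 : 0 ≤ tS σ h (Q j) x :=
      ((hSCL T R σ h hSD (Q j) (fun x => (ε j : ℂ) • H' j x) (hS.tke j).ket
        (hS.tke j).eq).2.2.2.2.2 x hx).2.1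
    have h2 := mul_nonneg (hS.eps j).le h1
    have h3 := hS.S_le j
    have h4 : 1 / ((j : ℝ) + 1) ≤ 1 := by
      rw [div_le_one (by positivity)]
      have : (0 : ℝ) ≤ j := Nat.cast_nonneg j
      linarith
    show S j - ε j * tS σ h (Q j) x ≤ s + 1
    linarith
  -- minimum points
  have hmin : ∀ j, ∃ x ∈ T, ∀ y ∈ T, v j x ≤ v j y := by
    intro j
    obtain ⟨x, hx, hm, -⟩ := hMAXF T R hH.et (fun x => - v j x) ⟨(hvI j).1.neg,
      fun γ x y hxy => by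
        have := (hvI j).2 γ x y hxy
        simp only
        rw [this]⟩
    exact ⟨x, hx, fun y hy => by
      have := hm y hy
      linarith⟩
  choose z hz hzm using hmin
  set δ : ℕ → ℝ := fun j => 1 / ((j : ℝ) + 1) with hδ
  have hδ0 : ∀ j, 0 < δ j := fun j => by
    simp only [hδ]
    positivity
  have hδ1 : ∀ j, δ j ≤ 1 := fun j => by
    simp only [hδ]
    rw [div_le_one (by positivity)]
    have : (0 : ℝ) ≤ j := Nat.cast_nonneg j
    linarith
  set η : ℕ → ℝ := fun j => v j (z j) + δ j with hη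
  have hη0 : ∀ j, 0 < η j := fun j => add_pos_of_nonneg_of_pos (hv0 j _ (hz j)) (hδ0 j)
  have hη1 : ∀ j, η j ≤ 2 * δ j := by
    intro j
    obtain ⟨x, hx, hxs⟩ := hS.m_ge j
    have h1 := hzm j x hx
    have h2 : v j x ≤ δ j := by
      have h3 := hS.S_le j
      show S j - ε j * tS σ h (Q j) x ≤ 1 / ((j : ℝ) + 1)
      have h4 : s ≤ ε j * tS σ h (Q j) x := hxs
      linarith
    show v j (z j) + δ j ≤ 2 * δ j
    linarith
  have hδlim : Tendsto δ atTop (𝓝 0) := tendsto_one_div_add_atTop_nhds_zero_nat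
  have hηlim : Tendsto η atTop (𝓝 0) := by
    have h1 : Tendsto (fun j => 2 * δ j) atTop (𝓝 0) := by
      have := hδlim.const_mul 2
      rwa [mul_zero] at this
    exact squeeze_zero (fun j => (hη0 j).le) hη1 h1
  refine hRVZ T R H hH κ hκ K (s + 1) K⁻¹ (inv_pos.2 hK) δ η v Q
    (fun j => (hS.tke j).ket) (fun j => (hW j).1) ?_ hvI (fun j x hx => ⟨hv0 j x hx, hvM j x hx⟩)
    (fun j => ⟨hδ0 j, hδ1 j, hη0 j⟩) hηlim ?_ ?_ ?_
  · intro C hC hCc
    obtain ⟨B, hB⟩ := hW2 C hC hCc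
    exact ⟨B, fun j => hB (ε j) (H' j) (Q j) (seq_tkes' hS j)⟩
  · intro j x hx
    have := hzm j x hx
    show v j (z j) + δ j ≤ v j x + δ j
    linarith
  · intro j
    have hpos : ∀ x ∈ T, 0 < v j x + δ j := fun x hx =>
      add_pos_of_nonneg_of_pos (hv0 j x hx) (hδ0 j)
    have hI : InvF T R (fun x => (v j x + δ j)⁻¹) := by
      refine ⟨((hvI j).1.add contDiffOn_const).inv fun x hx => (hpos x hx).ne', fun γ x y hxy => ?_⟩
      have := (hvI j).2 γ x y hxy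
      simp only
      rw [this]
    have hlg := hRLG T R (Q j) (hS.tke j).ket κ hκ (v j) (hvI j) (hv0 j) (hvl j) (δ j) (hδ0 j)
    have h1 := (hW j).2.2.2 (fun x => (v j x + δ j)⁻¹) hI (fun x hx => inv_pos.2 (hpos x hx))
      hlg.1 (z j) (hz j)
    have h2 : avE T κ (Q j) (fun x => η j / (v j x + δ j)) =
        η j * avE T κ (Q j) (fun x => (v j x + δ j)⁻¹) := by
      rw [← avE_const_mul]
      congr 1
    rw [h2]
    have h3 : (η j)⁻¹ ≤ K * avE T κ (Q j) (fun x => (v j x + δ j)⁻¹) := h1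
    have h4 := mul_le_mul_of_nonneg_left h3 (hη0 j).le
    rw [mul_inv_cancel₀ (hη0 j).ne'] at h4
    rw [inv_le_iff_one_le_mul₀ hK]
    linarith
  · intro j
    exact (hRLG T R (Q j) (hS.tke j).ket κ hκ (v j) (hvI j) (hv0 j) (hvl j) (δ j) (hδ0 j)).2

end Pool.Agent.Helper57.HX
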